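import Mathlib

set_option autoImplicit false

namespace Pool.Agent.H62c

open Polynomial HahnSeries

/-- Formal Laurent series over the complex numbers. -/
abbrev LS := HahnSeries ℤ ℂ

/-- The variable at infinity, `x = T⁻¹`. -/
noncomputable def xx : LS := HahnSeries.single (-1) 1

/-- Euler operator `T d/dT`. -/
noncomputable def theta : LS →+ LS where
  toFun φ := ⟨fun n => (n : ℂ) * φ.coeff n, φ.isPWO_support.mono (by
    intro n hn
    rw [Function.mem_support] at hn
    rw [HahnSeries.mem_support]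
    intro h
    exact hn (by rw [h, mul_zero]))⟩
  map_zero' := by
    ext n
    simp
  map_add' φ ψ := by
    ext n
    simp [mul_add]

@[simp] theorem theta_coeff (φ : LS) (n : ℤ) : (theta φ).coeff n = (n : ℂ) * φ.coeff n := rfl

theorem theta_support (φ : LS) : (theta φ).support ⊆ φ.support := by
  intro n hn
  rw [HahnSeries.mem_support] at hn ⊢
  intro h
  exact hn (by rw [theta_coeff, h, mul_zero])

theorem theta_mul (φ ψ : LS) : theta (φ * ψ) = φ * theta ψ + theta φ * ψ := by
  ext n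
  rw [theta_coeff, HahnSeries.coeff_add,
    HahnSeries.coeff_mul_right' ψ.isPWO_support (theta_support ψ),
    HahnSeries.coeff_mul_left' φ.isPWO_support (theta_support φ), HahnSeries.coeff_mul,
    Finset.mul_sum, ← Finset.sum_add_distrib]
  apply Finset.sum_congr rfl
  intro ij hij
  have h2 := (Finset.mem_antidiagonal.1 hij).2.2
  rw [theta_coeff, theta_coeff, ← h2]
  push_cast
  ring

/-- The derivation `d/dx = - T² d/dT`. -/
noncomputable def DD : LS →+ LS :=
  -((AddMonoidHom.mulLeft (HahnSeries.single (1 : ℤ) (1 : ℂ) : LS)).comp theta)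

theorem DD_apply (φ : LS) : DD φ = -(HahnSeries.single (1 : ℤ) (1 : ℂ) * theta φ) := rfl

theorem DD_mul (φ ψ : LS) : DD (φ * ψ) = φ * DD ψ + DD φ * ψ := by
  rw [DD_apply, DD_apply, DD_apply, theta_mul]
  ring

theorem DD_coeff (φ : LS) (n : ℤ) : (DD φ).coeff n = -(((n - 1 : ℤ) : ℂ) * φ.coeff (n - 1)) := by
  rw [DD_apply, HahnSeries.coeff_neg]
  have := HahnSeries.coeff_single_mul_add (r := (1 : ℂ)) (x := theta φ) (a := n - 1) (b := (1 : ℤ))
  rw [sub_add_cancel] at this
  rw [this, one_mul, theta_coeff]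

theorem DD_xx : DD xx = 1 := by
  ext n
  rw [DD_coeff, HahnSeries.coeff_one, xx]
  by_cases h : n = 0
  · subst h
    simp
  · rw [if_neg h, HahnSeries.coeff_single_of_ne (by omega), mul_zero, neg_zero]

theorem DD_C (c : ℂ) : DD (HahnSeries.C c) = 0 := by
  ext n
  rw [DD_coeff, HahnSeries.coeff_zero]
  by_cases h : n = 1
  · subst h
    simp
  · rw [HahnSeries.C_apply, HahnSeries.coeff_single_of_ne (by omega), mul_zero, neg_zero]

/-- Polynomials in `x`. -/
noncomputable def px : ℂ[X] →+* LS := Polynomial.eval₂RingHom HahnSeries.C xx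

theorem px_X : px X = xx := by simp [px]

theorem px_C (c : ℂ) : px (C c) = HahnSeries.C c := by simp [px]

theorem DD_px (P : ℂ[X]) : DD (px P) = px (derivative P) := by
  induction P using Polynomial.induction_on' with
  | add p q hp hq => rw [map_add, map_add, derivative_add, map_add, hp, hq]
  | monomial n a =>
    induction n with
    | zero =>
      rw [monomial_zero_left, px_C, DD_C, derivative_C, map_zero]
    | succ n ih =>
      have h : (monomial (n + 1) a : ℂ[X]) = monomial n a * X := by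
        rw [monomial_mul_X]
      rw [h, map_mul, DD_mul, ih, px_X, DD_xx, derivative_mul, derivative_X, map_add, map_mul,
        map_mul, px_X, map_one]
      ring

theorem res_DD (φ : LS) : (DD φ).coeff 1 = 0 := by
  rw [DD_coeff]
  simp

theorem xx_pow (n : ℕ) : xx ^ n = HahnSeries.single (-(n : ℤ)) 1 := by
  rw [xx, HahnSeries.single_pow]
  simp

theorem coeff_xx_pow_mul (i : ℕ) (φ : LS) (n : ℤ) : (xx ^ i * φ).coeff n = φ.coeff (n + i) := by
  rw [xx_pow]
  have := HahnSeries.coeff_single_mul_add (r := (1 : ℂ)) (x := φ) (a := n + i) (b := (-(i : ℤ)))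
  rw [show n + (i : ℤ) + -(i : ℤ) = n by ring] at this
  rw [this, one_mul]

theorem coeff_px_mul {P : ℂ[X]} {N : ℕ} (hP : P.natDegree < N) (φ : LS) (n : ℤ) :
    (px P * φ).coeff n = ∑ i ∈ Finset.range N, P.coeff i * φ.coeff (n + i) := by
  rw [px, coe_eval₂RingHom, eval₂_eq_sum_range' _ hP, Finset.sum_mul, HahnSeries.coeff_sum]
  apply Finset.sum_congr rfl
  intro i _
  rw [mul_assoc, HahnSeries.C_apply, HahnSeries.coeff_single_zero_mul, coeff_xx_pow_mul]

theorem coeff_px (P : ℂ[X]) (n : ℤ) : (px P).coeff n = if n ≤ 0 then P.coeff (-n).toNat else 0 := by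
  have h := coeff_px_mul (N := P.natDegree + 1) (Nat.lt_succ_self _) (1 : LS) n
  rw [mul_one] at h
  rw [h]
  simp only [HahnSeries.coeff_one]
  by_cases hn : n ≤ 0
  · rw [if_pos hn]
    obtain ⟨m, rfl⟩ : ∃ m : ℕ, n = -(m : ℤ) := ⟨(-n).toNat, by omega⟩
    rw [neg_neg, Int.toNat_natCast]
    by_cases hm : m < P.natDegree + 1
    · rw [Finset.sum_eq_single m]
      · simp
      · intro i _ hi
        rw [if_neg (by omega), mul_zero]
      · intro h
        exact absurd (Finset.mem_range.2 hm) h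
    · rw [Polynomial.coeff_eq_zero_of_natDegree_lt (by omega)]
      apply Finset.sum_eq_zero
      intro i hi
      rw [Finset.mem_range] at hi
      rw [if_neg (by omega), mul_zero]
  · rw [if_neg hn]
    apply Finset.sum_eq_zero
    intro i hi
    rw [if_neg (by omega), mul_zero]

theorem px_injective : Function.Injective px := by
  intro P Q h
  ext i
  have h1 := congrArg (fun φ : LS => φ.coeff (-(i : ℤ))) h
  simp only [coeff_px] at h1
  rw [if_pos (by omega), if_pos (by omega)] at h1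
  simpa using h1

/-- Polynomials in `x` inside Laurent series. -/
def IsPoly (φ : LS) : Prop := ∃ ρ : ℂ[X], φ = px ρ

theorem IsPoly.add {φ ψ : LS} (h : IsPoly φ) (h' : IsPoly ψ) : IsPoly (φ + ψ) := by
  obtain ⟨ρ, rfl⟩ := h
  obtain ⟨σ, rfl⟩ := h'
  exact ⟨ρ + σ, by rw [map_add]⟩

theorem IsPoly.neg {φ : LS} (h : IsPoly φ) : IsPoly (-φ) := by
  obtain ⟨ρ, rfl⟩ := h
  exact ⟨-ρ, by rw [map_neg]⟩

theorem IsPoly.sub {φ ψ : LS} (h : IsPoly φ) (h' : IsPoly ψ) : IsPoly (φ - ψ) := by
  rw [sub_eq_add_neg]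
  exact h.add h'.neg

theorem IsPoly.mul {φ : LS} (h : IsPoly φ) (P : ℂ[X]) : IsPoly (px P * φ) := by
  obtain ⟨ρ, rfl⟩ := h
  exact ⟨P * ρ, by rw [map_mul]⟩

theorem IsPoly.deriv {φ : LS} (h : IsPoly φ) : IsPoly (DD φ) := by
  obtain ⟨ρ, rfl⟩ := h
  exact ⟨derivative ρ, DD_px ρ⟩

theorem IsPoly.zero : IsPoly 0 := ⟨0, by rw [map_zero]⟩

theorem IsPoly.res {φ : LS} (h : IsPoly φ) : φ.coeff 1 = 0 := by
  obtain ⟨ρ, rfl⟩ := h
  rw [coeff_px, if_neg (by norm_num)]

end Pool.Agent.H62c
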