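import Mathlib
import Pool.Agent.H62c.Laurent

set_option autoImplicit false

namespace Pool.Agent.H62c

open Polynomial

variable {y₁ y₂ : LS} {p J Δ ρ₁ ρ₂ : ℂ[X]}

theorem ode_clear {y₁ y₂ : LS} {Δ M N ρ A₁ A₂ B : ℂ[X]}
    (h : px Δ * DD y₁ = px M * y₁ + px N * y₂ + px ρ)
    (h1 : y₁ * px B = px A₁) (h2 : y₂ * px B = px A₂) :
    Δ * (derivative A₁ * B - A₁ * derivative B) = B * (M * A₁ + N * A₂) + ρ * B ^ 2 := by
  apply px_injective
  have h3 := congrArg DD h1
  rw [DD_mul, DD_px, DD_px] at h3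
  simp only [map_mul, map_sub, map_add, map_pow]
  rw [← h1, ← h2, ← h3]
  linear_combination (px B) ^ 2 * h

theorem eval_key {Δ M N ρ A₁ A₂ B₁ : ℂ[X]} {c : ℂ} {k : ℕ}
    (h : Δ * (derivative A₁ * ((X - C c) ^ (k + 1) * B₁) -
      A₁ * derivative ((X - C c) ^ (k + 1) * B₁)) =
      ((X - C c) ^ (k + 1) * B₁) * (M * A₁ + N * A₂) + ρ * ((X - C c) ^ (k + 1) * B₁) ^ 2) :
    Δ * (derivative A₁ * (X - C c) * B₁ - A₁ * (((k : ℂ[X]) + 1) * B₁ + (X - C c) * derivative B₁)) =
      (X - C c) * (B₁ * (M * A₁ + N * A₂) + ρ * (X - C c) ^ (k + 1) * B₁ ^ 2) := by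
  have hne : (X - C c) ^ k ≠ 0 := pow_ne_zero _ (X_sub_C_ne_zero c)
  apply mul_left_cancel₀ hne
  have hd : derivative ((X - C c) ^ (k + 1) * B₁) =
      ((k : ℂ[X]) + 1) * (X - C c) ^ k * B₁ + (X - C c) ^ (k + 1) * derivative B₁ := by
    rw [derivative_mul, derivative_pow, derivative_sub, derivative_X, derivative_C]
    simp
  rw [hd] at h
  linear_combination h

theorem linalg {k : ℕ} {d j a₁ a₂ q : ℂ} (hd : d ≠ 0) (h0 : d ^ 2 + 108 * q * j ^ 2 = 0)
    (h1 : -((k : ℂ) + 1) * d * a₁ = d * a₁ / 6 - 6 * j * a₂)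
    (h2 : -((k : ℂ) + 1) * d * a₂ = q * j * a₁ + d * a₂ / 3) : a₁ = 0 ∧ a₂ = 0 := by
  have hk1 : ((k : ℂ) + 1) ≠ 0 := by exact_mod_cast Nat.succ_ne_zero k
  have hk2 : ((k : ℂ) + 1 + 1 / 2) ≠ 0 := by
    have : ((2 * k + 3 : ℕ) : ℂ) ≠ 0 := by exact_mod_cast (by omega : 2 * k + 3 ≠ 0)
    intro h
    apply this
    push_cast
    linear_combination 2 * h
  have hk3 : ((k : ℂ) + 1 + 1 / 3) ≠ 0 := by
    have : ((3 * k + 4 : ℕ) : ℂ) ≠ 0 := by exact_mod_cast (by omega : 3 * k + 4 ≠ 0)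
    intro h
    apply this
    push_cast
    linear_combination 3 * h
  have h3 : d ^ 2 * (((k : ℂ) + 1) * ((k : ℂ) + 1 + 1 / 2)) * a₁ = 0 := by
    linear_combination (-((k : ℂ) + 1 + 1 / 3) * d) * h1 - 6 * j * h2 - (1 / 18) * a₁ * h0
  have ha₁ : a₁ = 0 := by
    rcases mul_eq_zero.1 h3 with h | h
    · exact absurd h (mul_ne_zero (pow_ne_zero _ hd) (mul_ne_zero hk1 hk2))
    · exact h
  refine ⟨ha₁, ?_⟩
  rw [ha₁] at h2
  have h4 : ((k : ℂ) + 1 + 1 / 3) * d * a₂ = 0 := by linear_combination -h2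
  rcases mul_eq_zero.1 h4 with h | h
  · exact absurd h (mul_ne_zero hk3 hd)
  · exact h

theorem isPoly_of_ode (hcop : IsCoprime Δ (derivative Δ))
    (hid : ∀ c : ℂ, Δ.eval c = 0 → ((derivative Δ).eval c) ^ 2 + 108 * p.eval c * (J.eval c) ^ 2 = 0)
    (h₁ : px Δ * DD y₁ = px (C (1 / 6) * derivative Δ) * y₁ + px (-6 * J) * y₂ + px ρ₁)
    (h₂ : px Δ * DD y₂ = px (C (1 / 3) * derivative Δ) * y₂ + px (p * J) * y₁ + px ρ₂)
    (hK : ∃ A₁ A₂ B : ℂ[X], B ≠ 0 ∧ y₁ * px B = px A₁ ∧ y₂ * px B = px A₂) :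
    IsPoly y₁ ∧ IsPoly y₂ := by
  obtain ⟨A₁, A₂, B, hB, hA₁, hA₂⟩ := hK
  induction hn : B.natDegree using Nat.strong_induction_on generalizing A₁ A₂ B with
  | _ n ih =>
    by_cases hn0 : n = 0
    · rw [hn0] at hn
      obtain ⟨b, rfl⟩ := natDegree_eq_zero.1 hn
      have hb : b ≠ 0 := fun h => hB (by rw [h, C_0])
      have hpb : px (C b) * px (C b⁻¹) = 1 := by
        rw [← map_mul, ← C_mul, mul_inv_cancel₀ hb, C_1, map_one]
      refine ⟨⟨A₁ * C b⁻¹, ?_⟩, ⟨A₂ * C b⁻¹, ?_⟩⟩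
      · rw [map_mul, ← hA₁, mul_assoc, hpb, mul_one]
      · rw [map_mul, ← hA₂, mul_assoc, hpb, mul_one]
    · have hdeg : B.degree ≠ 0 := by
        intro h
        apply hn0
        rw [← hn, natDegree_eq_zero_iff_degree_le_zero, h]
      obtain ⟨c, hc⟩ := IsAlgClosed.exists_root B hdeg
      obtain ⟨B₁, hB₁, hB₁'⟩ := exists_eq_pow_rootMultiplicity_mul_and_not_dvd B hB c
      have hr : 0 < B.rootMultiplicity c := (rootMultiplicity_pos hB).2 hc
      obtain ⟨k, hk⟩ : ∃ k, B.rootMultiplicity c = k + 1 := ⟨B.rootMultiplicity c - 1, by omega⟩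
      rw [hk] at hB₁
      have hB₁c : B₁.eval c ≠ 0 := by
        intro h
        exact hB₁' (dvd_iff_isRoot.2 h)
      have k1 := ode_clear h₁ hA₁ hA₂
      have k2 := ode_clear h₂ hA₂ hA₁
      rw [hB₁] at k1 k2
      have l1 := eval_key k1
      have l2 := eval_key k2
      have key : A₁.eval c = 0 ∧ A₂.eval c = 0 := by
        by_cases hΔ : Δ.eval c = 0
        · obtain ⟨Δ₁, hΔ₁⟩ := dvd_iff_isRoot.2 hΔ
          have hd : (derivative Δ).eval c = Δ₁.eval c := by
            rw [hΔ₁]; simp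
          have hd0 : (derivative Δ).eval c ≠ 0 := by
            obtain ⟨u, v, huv⟩ := hcop
            intro h
            have := congrArg (eval c) huv
            simp [hΔ, h] at this
          have m1 := congrArg (eval c) (mul_left_cancel₀ (X_sub_C_ne_zero c)
            ((mul_assoc _ _ _).symm.trans ((congrArg (· * _) hΔ₁.symm).trans l1)))
          have m2 := congrArg (eval c) (mul_left_cancel₀ (X_sub_C_ne_zero c)
            ((mul_assoc _ _ _).symm.trans ((congrArg (· * _) hΔ₁.symm).trans l2)))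
          simp only [eval_mul, eval_sub, eval_add, eval_X, eval_C, sub_self, mul_zero, zero_mul,
            zero_sub, add_zero, eval_pow, zero_pow (Nat.succ_ne_zero k), eval_natCast, eval_one,
            eval_neg, ← hd] at m1 m2
          refine linalg (k := k) hd0 (hid c hΔ) ?_ ?_
          · apply mul_left_cancel₀ hB₁c
            simp only [eval_ofNat] at m1
            linear_combination m1
          · apply mul_left_cancel₀ hB₁c
            linear_combination m2
        · have m1 := congrArg (eval c) l1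
          have m2 := congrArg (eval c) l2
          simp only [eval_mul, eval_sub, eval_add, eval_X, eval_C, sub_self, mul_zero, zero_mul,
            zero_sub, add_zero, eval_natCast, eval_one] at m1 m2
          have hk1 : ((k : ℂ) + 1) ≠ 0 := by exact_mod_cast Nat.succ_ne_zero k
          constructor
          · simpa [hΔ, hB₁c, hk1] using m1
          · simpa [hΔ, hB₁c, hk1] using m2
      obtain ⟨A₁', hA₁'⟩ := dvd_iff_isRoot.2 key.1
      obtain ⟨A₂', hA₂'⟩ := dvd_iff_isRoot.2 key.2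
      obtain ⟨B', hB'⟩ := dvd_iff_isRoot.2 hc
      have hB'0 : B' ≠ 0 := by
        rintro rfl
        exact hB (by rw [hB', mul_zero])
      have hx : px (X - C c) ≠ 0 := by
        intro h
        exact X_sub_C_ne_zero c (px_injective (by rw [h, map_zero]))
      refine ih B'.natDegree ?_ A₁' A₂' B' hB'0 ?_ ?_ rfl
      · rw [← hn, hB', natDegree_mul (X_sub_C_ne_zero c) hB'0, natDegree_X_sub_C]
        omega
      · apply mul_left_cancel₀ hx
        rw [← map_mul, ← hA₁', ← hA₁, hB', map_mul]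
        ring
      · apply mul_left_cancel₀ hx
        rw [← map_mul, ← hA₂', ← hA₂, hB', map_mul]
        ring

end Pool.Agent.H62c
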