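import Mathlib

set_option autoImplicit false

namespace Pool.Agent.H62c

/-- The trace commutes with derivations. -/
theorem trace_deriv {K E : Type*} [Field K] [Field E] [Algebra K E] [FiniteDimensional K E]
    (dK : K →+ K) (dE : E →+ E)
    (hE : ∀ a b, dE (a * b) = a * dE b + dE a * b)
    (hc : ∀ k, dE (algebraMap K E k) = algebraMap K E (dK k)) (a : E) :
    Algebra.trace K E (dE a) = dK (Algebra.trace K E a) := by
  set b := Module.finBasis K E
  have hrepr : ∀ (e : E) i, b.repr (dE e) i =
      dK (b.repr e i) + ∑ k, b.repr e k * b.repr (dE (b k)) i := by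
    intro e i
    have h1 : dE e = ∑ k, (b.repr e k • dE (b k) + dK (b.repr e k) • b k) := by
      conv_lhs => rw [← b.sum_repr e, map_sum]
      apply Finset.sum_congr rfl
      intro k _
      rw [Algebra.smul_def, hE, hc, Algebra.smul_def, Algebra.smul_def]
    rw [h1, map_sum, Finsupp.finsetSum_apply]
    simp only [map_add, map_smul, Finsupp.add_apply, Finsupp.smul_apply, smul_eq_mul,
      Module.Basis.repr_self, Finset.sum_add_distrib]
    rw [add_comm]
    congr 1
    rw [Finset.sum_eq_single i]
    · rw [Finsupp.single_eq_same, mul_one]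
    · intro k _ hk
      rw [Finsupp.single_eq_of_ne hk.symm, mul_zero]
    · intro h
      exact absurd (Finset.mem_univ i) h
  rw [Algebra.trace_eq_matrix_trace b, Algebra.trace_eq_matrix_trace b, Matrix.trace, Matrix.trace,
    map_sum]
  simp only [Matrix.diag_apply, Algebra.leftMulMatrix_eq_repr_mul]
  have h2 : ∀ j, b.repr (dE a * b j) j = dK (b.repr (a * b j) j) +
      ((∑ k, b.repr (a * b j) k * b.repr (dE (b k)) j) -
        ∑ k, b.repr (dE (b j)) k * b.repr (a * b k) j) := by
    intro j
    have h3 : dE a * b j = dE (a * b j) - a * dE (b j) := by rw [hE]; ring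
    have h4 : b.repr (a * dE (b j)) j = ∑ k, b.repr (dE (b j)) k * b.repr (a * b k) j := by
      conv_lhs => rw [← b.sum_repr (dE (b j)), Finset.mul_sum, map_sum, Finsupp.finsetSum_apply]
      apply Finset.sum_congr rfl
      intro k _
      rw [mul_smul_comm, map_smul, Finsupp.smul_apply, smul_eq_mul]
    rw [h3, map_sub, Finsupp.sub_apply, hrepr, h4]
    ring
  simp only [h2]
  rw [Finset.sum_add_distrib, Finset.sum_sub_distrib]
  conv_rhs => rw [← add_zero (∑ x, dK ((b.repr (a * b x)) x))]
  congr 1
  rw [sub_eq_zero, Finset.sum_comm]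
  apply Finset.sum_congr rfl
  intro j _
  apply Finset.sum_congr rfl
  intro k _
  rw [mul_comm]

end Pool.Agent.H62c
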