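import Mathlib
import Pool.Agent.H62c.Laurent
import Pool.Agent.H62c.Trace

set_option autoImplicit false
set_option synthInstance.maxHeartbeats 400000
set_option maxHeartbeats 1000000

namespace Pool.Agent.H62c

open Polynomial

/-- Rational functions of `x` inside Laurent series. -/
noncomputable def KK : Subfield LS where
  carrier := {φ | ∃ A B : ℂ[X], B ≠ 0 ∧ φ * px B = px A}
  mul_mem' := by
    rintro φ ψ ⟨A, B, hB, h⟩ ⟨A', B', hB', h'⟩
    refine ⟨A * A', B * B', mul_ne_zero hB hB', ?_⟩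
    rw [map_mul, map_mul, ← h, ← h']
    ring
  one_mem' := ⟨1, 1, one_ne_zero, by simp⟩
  add_mem' := by
    rintro φ ψ ⟨A, B, hB, h⟩ ⟨A', B', hB', h'⟩
    refine ⟨A * B' + A' * B, B * B', mul_ne_zero hB hB', ?_⟩
    rw [map_mul, map_add, map_mul, map_mul, ← h, ← h']
    ring
  zero_mem' := ⟨0, 1, one_ne_zero, by simp⟩
  neg_mem' := by
    rintro φ ⟨A, B, hB, h⟩
    refine ⟨-A, B, hB, ?_⟩
    rw [map_neg, ← h]
    ring
  inv_mem' := by
    rintro φ ⟨A, B, hB, h⟩
    by_cases hφ : φ = 0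
    · rw [hφ, inv_zero]
      exact ⟨0, 1, one_ne_zero, by simp⟩
    · refine ⟨B, A, ?_, ?_⟩
      · rintro rfl
        rw [map_zero] at h
        rcases mul_eq_zero.1 h with h | h
        · exact hφ h
        · exact hB (px_injective (by rw [h, map_zero]))
      · rw [← h, ← mul_assoc, inv_mul_cancel₀ hφ, one_mul]

theorem mem_KK {φ : LS} : φ ∈ KK ↔ ∃ A B : ℂ[X], B ≠ 0 ∧ φ * px B = px A := Iff.rfl

theorem px_mem_KK (P : ℂ[X]) : px P ∈ KK := ⟨P, 1, one_ne_zero, by simp⟩

theorem DD_mem_KK {φ : LS} (h : φ ∈ KK) : DD φ ∈ KK := by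
  obtain ⟨A, B, hB, h⟩ := h
  refine ⟨derivative A * B - A * derivative B, B * B, mul_ne_zero hB hB, ?_⟩
  have h1 := congrArg DD h
  rw [DD_mul, DD_px, DD_px] at h1
  rw [map_sub, map_mul, map_mul, map_mul, ← h1, ← h]
  ring

/-- derivation on rational functions -/
noncomputable def dK : KK →+ KK where
  toFun φ := ⟨DD φ, DD_mem_KK φ.2⟩
  map_zero' := Subtype.ext (map_zero DD)
  map_add' _ _ := Subtype.ext (map_add DD _ _)

/-- polynomials into rational functions -/
noncomputable def pk : ℂ[X] →+* KK := px.codRestrict KK px_mem_KK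

theorem pk_injective : Function.Injective pk := by
  intro P Q h
  exact px_injective (congrArg Subtype.val h)

theorem DD_aeval (a : LS) (P : KK[X]) : ∃ R : KK[X],
    DD (aeval a P) = aeval a R + aeval a (derivative P) * DD a := by
  induction P using Polynomial.induction_on' with
  | add p q hp hq =>
    obtain ⟨R, hR⟩ := hp
    obtain ⟨S, hS⟩ := hq
    refine ⟨R + S, ?_⟩
    rw [map_add, map_add, hR, hS, map_add, derivative_add, map_add]
    ring
  | monomial n c =>
    induction n with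
    | zero =>
      refine ⟨C (dK c), ?_⟩
      rw [monomial_zero_left, aeval_C, aeval_C, derivative_C, map_zero, zero_mul, add_zero]
      rfl
    | succ n ih =>
      obtain ⟨R, hR⟩ := ih
      refine ⟨R * X, ?_⟩
      have h : (monomial (n + 1) c : KK[X]) = monomial n c * X := by
        rw [monomial_mul_X]
      rw [h, map_mul, DD_mul, hR, aeval_X, derivative_mul, derivative_X, map_add, map_mul,
        map_mul, map_mul, aeval_X, map_one]
      ring

theorem charZero_LS : CharZero LS :=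
  charZero_of_injective_ringHom (f := (HahnSeries.C : ℂ →+* LS)) HahnSeries.C_injective

theorem charZero_KK : CharZero KK := by
  have := charZero_LS
  exact KK.subtype.charZero

theorem DD_mem_adjoin {a : LS} (ha : IsIntegral KK a) : DD a ∈ IntermediateField.adjoin KK {a} := by
  obtain ⟨R, hR⟩ := DD_aeval a (minpoly KK a)
  rw [minpoly.aeval, map_zero] at hR
  have := charZero_KK
  have hsep : (minpoly KK a).Separable := (minpoly.irreducible ha).separable
  have hne : aeval a (derivative (minpoly KK a)) ≠ 0 :=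
    hsep.aeval_derivative_ne_zero (minpoly.aeval KK a)
  have hda : DD a = -(aeval a R) / aeval a (derivative (minpoly KK a)) := by
    rw [eq_div_iff hne]
    linear_combination -hR
  have hmem : ∀ S : KK[X], aeval a S ∈ IntermediateField.adjoin KK {a} := by
    intro S
    exact (IntermediateField.algebra_adjoin_le_adjoin KK {a}) (aeval_mem_adjoin_singleton KK a)
  rw [hda]
  exact div_mem (neg_mem (hmem _)) (hmem _)

/-- The rational solution. -/
theorem exists_rational {f g : LS} (hf : IsIntegral KK f) (hg : g ∈ IntermediateField.adjoin KK {f}) :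
    ∃ y₁ y₂ : LS, (∃ A₁ A₂ B : ℂ[X], B ≠ 0 ∧ y₁ * px B = px A₁ ∧ y₂ * px B = px A₂) ∧
      ∀ A₁ A₂ B₁ B₂ ρ : ℂ[X], px A₁ * DD f + px A₂ * DD g + px B₁ * f + px B₂ * g = px ρ →
        px A₁ * DD y₁ + px A₂ * DD y₂ + px B₁ * y₁ + px B₂ * y₂ = px ρ := by
  set E := IntermediateField.adjoin KK {f} with hE
  have hfin : FiniteDimensional KK E := IntermediateField.adjoin.finiteDimensional hf
  have hfE : f ∈ E := IntermediateField.mem_adjoin_simple_self KK f
  have hDE : ∀ a ∈ E, DD a ∈ E := by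
    intro a ha
    have hint : IsIntegral KK (⟨a, ha⟩ : E) := Algebra.IsIntegral.isIntegral _
    have hint' : IsIntegral KK a := hint.map E.val
    have h1 := DD_mem_adjoin hint'
    have h2 : IntermediateField.adjoin KK {a} ≤ E := by
      rw [IntermediateField.adjoin_le_iff]
      intro b hb
      rw [Set.mem_singleton_iff.1 hb]
      exact ha
    exact h2 h1
  let dE : E →+ E :=
    { toFun := fun a => ⟨DD a, hDE a a.2⟩
      map_zero' := Subtype.ext (map_zero DD)
      map_add' := fun a b => Subtype.ext (map_add DD _ _) }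
  have htr := trace_deriv dK dE (fun a b => Subtype.ext (DD_mul (a : LS) (b : LS)))
    (fun k => Subtype.ext rfl)
  let T : E → LS := fun a => ((Algebra.trace KK E a : KK) : LS)
  have hTadd : ∀ a b, T (a + b) = T a + T b := by
    intro a b
    simp only [T, map_add]
    rfl
  have hTmul : ∀ (k : KK) a, T (k • a) = (k : LS) * T a := by
    intro k a
    simp only [T, map_smul, smul_eq_mul]
    rfl
  have hTD : ∀ a, T (dE a) = DD (T a) := by
    intro a
    simp only [T, htr]
    rfl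
  set n := Module.finrank KK E with hn
  have hn0 : (n : ℂ) ≠ 0 := by
    have : 0 < n := Module.finrank_pos
    exact_mod_cast this.ne'
  have hT1 : ∀ ρ : ℂ[X], T (algebraMap KK E (pk ρ)) = px ((n : ℂ[X]) * ρ) := by
    intro ρ
    simp only [T, Algebra.trace_algebraMap]
    rw [map_mul, map_natCast, nsmul_eq_mul]
    rfl
  have hcn : px (C (n : ℂ)⁻¹) * px (n : ℂ[X]) = 1 := by
    rw [← map_mul, ← C_eq_natCast, ← C_mul, inv_mul_cancel₀ hn0, C_1, map_one]
  refine ⟨px (C (n : ℂ)⁻¹) * T ⟨f, hfE⟩, px (C (n : ℂ)⁻¹) * T ⟨g, hg⟩, ?_, ?_⟩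
  · obtain ⟨A₁, B₁, hB₁, h₁⟩ := mul_mem (px_mem_KK (C (n : ℂ)⁻¹)) (Algebra.trace KK E ⟨f, hfE⟩).2
    obtain ⟨A₂, B₂, hB₂, h₂⟩ := mul_mem (px_mem_KK (C (n : ℂ)⁻¹)) (Algebra.trace KK E ⟨g, hg⟩).2
    refine ⟨A₁ * B₂, A₂ * B₁, B₁ * B₂, mul_ne_zero hB₁ hB₂, ?_, ?_⟩
    · rw [map_mul, map_mul, ← h₁]
      ring
    · rw [map_mul, map_mul, ← h₂]
      ring
  · intro A₁ A₂ B₁ B₂ ρ h
    have h1 : (pk A₁ • dE ⟨f, hfE⟩ + pk A₂ • dE ⟨g, hg⟩ + pk B₁ • (⟨f, hfE⟩ : E) +
        pk B₂ • (⟨g, hg⟩ : E)) = algebraMap KK E (pk ρ) := by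
      apply Subtype.ext
      exact h
    have h2 := congrArg T h1
    rw [hTadd, hTadd, hTadd, hTmul, hTmul, hTmul, hTmul, hTD, hTD, hT1] at h2
    have hpk : ∀ P : ℂ[X], ((pk P : KK) : LS) = px P := fun P => rfl
    rw [hpk, hpk, hpk, hpk, map_mul] at h2
    have hDc : ∀ (c : ℂ) (φ : LS), DD (px (C c) * φ) = px (C c) * DD φ := by
      intro c φ
      rw [DD_mul, DD_px, derivative_C, map_zero, zero_mul, add_zero]
    rw [hDc, hDc]
    linear_combination px (C (n : ℂ)⁻¹) * h2 + px ρ * hcn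

end Pool.Agent.H62c
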