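import Mathlib
import Pool.Agent.H62c.Rational
import Pool.Agent.H62c.Poles

set_option autoImplicit false
set_option synthInstance.maxHeartbeats 400000
set_option maxHeartbeats 1000000

namespace Pool.Agent.H62c

open Polynomial

/-- discriminant of `s^3 + p s + q` -/
noncomputable def Del (p q : ℂ[X]) : ℂ[X] := -4 * p ^ 3 - 27 * q ^ 2

/-- the other invariant -/
noncomputable def Jac (p q : ℂ[X]) : ℂ[X] := 3 * derivative p * q - 2 * p * derivative q

theorem numC (n : ℕ) [n.AtLeastTwo] : (OfNat.ofNat n : ℂ[X]) = C (OfNat.ofNat n) :=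
  (map_ofNat C n).symm

theorem numC_neg (n : ℕ) [n.AtLeastTwo] : (-OfNat.ofNat n : ℂ[X]) = C (-OfNat.ofNat n) := by
  rw [C_neg, numC]

theorem Del_deriv (p q : ℂ[X]) : derivative (Del p q) =
    -12 * p ^ 2 * derivative p - 54 * q * derivative q := by
  have h4 : derivative (-4 : ℂ[X]) = 0 := by
    rw [numC_neg, derivative_C]
  have h27 : derivative (27 : ℂ[X]) = 0 := by
    rw [numC, derivative_C]
  rw [Del, derivative_sub, derivative_mul, derivative_mul, derivative_pow, derivative_pow, h4, h27]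
  simp only [Nat.cast_ofNat, Nat.add_one_sub_one, map_ofNat]
  ring

variable {p q : ℂ[X]}

theorem Del_natDegree (hp : p.natDegree ≤ 2) (hq : q.natDegree ≤ 3) : (Del p q).natDegree ≤ 6 := by
  unfold Del
  refine (natDegree_sub_le _ _).trans (max_le ?_ ?_)
  · refine natDegree_mul_le.trans ?_
    have h1 : (-4 : ℂ[X]).natDegree = 0 := by
      rw [numC_neg, natDegree_C]
    have h2 : (p ^ 3).natDegree ≤ 3 * p.natDegree := natDegree_pow_le
    omega
  · refine natDegree_mul_le.trans ?_
    have h1 : (27 : ℂ[X]).natDegree = 0 := by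
      rw [numC, natDegree_C]
    have h2 : (q ^ 2).natDegree ≤ 2 * q.natDegree := natDegree_pow_le
    omega

theorem Jac_natDegree (hp : p.natDegree ≤ 2) (hq : q.natDegree ≤ 3) : (Jac p q).natDegree ≤ 4 := by
  have h1 : (3 : ℂ[X]).natDegree = 0 := by
    rw [numC, natDegree_C]
  have h2 : (2 : ℂ[X]).natDegree = 0 := by
    rw [numC, natDegree_C]
  have h3 := natDegree_derivative_le p
  have h4 := natDegree_derivative_le q
  unfold Jac
  refine (natDegree_sub_le _ _).trans (max_le ?_ ?_)
  · refine natDegree_mul_le.trans ?_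
    have := natDegree_mul_le (p := (3 : ℂ[X])) (q := derivative p)
    omega
  · refine natDegree_mul_le.trans ?_
    have := natDegree_mul_le (p := (2 : ℂ[X])) (q := p)
    omega

theorem Jac_coeff (hp : p.natDegree ≤ 2) (hq : q.natDegree ≤ 3) : (Jac p q).coeff 4 = 0 := by
  have h3 : (derivative p).natDegree ≤ 1 := by have := natDegree_derivative_le p; omega
  have h4 : (derivative q).natDegree ≤ 2 := by have := natDegree_derivative_le q; omega
  have e1 : (derivative p * q).coeff (1 + 3) = (derivative p).coeff 1 * q.coeff 3 :=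
    coeff_mul_add_eq_of_natDegree_le h3 hq
  have e2 : (p * derivative q).coeff (2 + 2) = p.coeff 2 * (derivative q).coeff 2 :=
    coeff_mul_add_eq_of_natDegree_le hp h4
  have : Jac p q = C 3 * (derivative p * q) - C 2 * (p * derivative q) := by
    unfold Jac
    simp only [map_ofNat]
    ring
  rw [this, coeff_sub, coeff_C_mul, coeff_C_mul]
  rw [show (4 : ℕ) = 1 + 3 from rfl, e1, show (1 + 3 : ℕ) = 2 + 2 from rfl, e2, coeff_derivative,
    coeff_derivative]
  push_cast
  ring

theorem Del_identity (p q : ℂ[X]) : derivative (Del p q) ^ 2 + 108 * p * Jac p q ^ 2 =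
    -(Del p q) * (36 * p * derivative p ^ 2 + 108 * derivative q ^ 2) := by
  rw [Del_deriv, Del, Jac]
  ring

theorem Jac_ne_zero (hdeg : (Del p q).coeff 6 ≠ 0) (hcop : IsCoprime (Del p q) (derivative (Del p q))) :
    Jac p q ≠ 0 := by
  intro h
  have h1 := Del_identity p q
  rw [h] at h1
  have h2 : Del p q ∣ derivative (Del p q) ^ 2 := by
    refine ⟨-(36 * p * derivative p ^ 2 + 108 * derivative q ^ 2), ?_⟩
    linear_combination h1
  have h3 : IsUnit (Del p q) := (hcop.pow_right (n := 2)).isUnit_of_dvd' dvd_rfl h2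
  have h4 := natDegree_eq_zero_of_isUnit h3
  exact hdeg (coeff_eq_zero_of_natDegree_lt (by omega))

/-- Growth of homogeneous solutions. -/
theorem growth {f g : LS} (hp : p.natDegree ≤ 2) (hq : q.natDegree ≤ 3)
    (hdeg : (Del p q).coeff 6 ≠ 0)
    (h₁ : px (Del p q) * DD f = px (C (1 / 6) * derivative (Del p q)) * f + px (-6 * Jac p q) * g)
    (h₂ : px (Del p q) * DD g = px (C (1 / 3) * derivative (Del p q)) * g + px (p * Jac p q) * f) :
    ∀ n : ℤ, n < -1 → f.coeff n = 0 ∧ g.coeff (n - 1) = 0 := by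
  have dΔ := Del_natDegree hp hq
  have dJ := Jac_natDegree hp hq
  have cJ := Jac_coeff hp hq
  have dΔ' : (derivative (Del p q)).natDegree ≤ 5 := by
    have := natDegree_derivative_le (Del p q); omega
  have dΔ6 : (C (1 / 6) * derivative (Del p q) : ℂ[X]).natDegree < 6 :=
    lt_of_le_of_lt (natDegree_C_mul_le _ _) (by omega)
  have dΔ3 : (C (1 / 3) * derivative (Del p q) : ℂ[X]).natDegree < 6 :=
    lt_of_le_of_lt (natDegree_C_mul_le _ _) (by omega)
  have e6 : (-6 * Jac p q) = C (-6) * Jac p q := by rw [numC_neg]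
  have dJ6 : (-6 * Jac p q).natDegree < 5 := by
    rw [e6]
    exact lt_of_le_of_lt (natDegree_C_mul_le _ _) (by omega)
  have cJ6 : (-6 * Jac p q).coeff 4 = 0 := by rw [e6, coeff_C_mul, cJ, mul_zero]
  have dpJ : (p * Jac p q).natDegree < 7 := lt_of_le_of_lt natDegree_mul_le (by omega)
  have cpJ : (p * Jac p q).coeff 6 = 0 := by
    have := coeff_mul_add_eq_of_natDegree_le hp dJ
    rw [show (2 + 4 : ℕ) = 6 from rfl] at this
    rw [this, cJ, mul_zero]
  have cΔ' : (derivative (Del p q)).coeff 5 = 6 * (Del p q).coeff 6 := by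
    rw [coeff_derivative]; push_cast; ring
  obtain ⟨N, hN⟩ : ∃ N : ℤ, ∀ n < N, f.coeff n = 0 ∧ g.coeff (n - 1) = 0 := by
    refine ⟨min f.order g.order, fun n hn => ⟨?_, ?_⟩⟩
    · exact HahnSeries.coeff_eq_zero_of_lt_order (lt_of_lt_of_le hn (min_le_left _ _))
    · have := min_le_right f.order g.order
      exact HahnSeries.coeff_eq_zero_of_lt_order (by omega)
  have key : ∀ k : ℕ, ∀ n : ℤ, n < N + k → n < -1 → f.coeff n = 0 ∧ g.coeff (n - 1) = 0 := by
    intro k
    induction k with
    | zero => intro n hn _; exact hN n (by simpa using hn)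
    | succ k ih =>
      intro n hn hn1
      by_cases hlt : n < N + k
      · exact ih n hlt hn1
      · have IHf : ∀ m, m < n → f.coeff m = 0 := fun m hm => (ih m (by push_cast at hn; omega) (by omega)).1
        have IHg : ∀ m, m < n - 1 → g.coeff m = 0 := by
          intro m hm
          have := (ih (m + 1) (by push_cast at hn; omega) (by omega)).2
          rwa [add_sub_cancel_right] at this
        have hn1' : ((n : ℂ) + 1) ≠ 0 := by
          have : ((n + 1 : ℤ) : ℂ) ≠ 0 := by exact_mod_cast (by omega : n + 1 ≠ 0)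
          push_cast at this
          exact this
        constructor
        · have c1 := congrArg (fun φ : LS => φ.coeff (n - 5)) h₁
          simp only [HahnSeries.coeff_add] at c1
          rw [coeff_px_mul (N := 7) (by omega), coeff_px_mul dΔ6, coeff_px_mul dJ6] at c1
          simp only [Finset.sum_range_succ, Finset.sum_range_zero, DD_coeff] at c1
          rw [IHf (n - 5 + ((0 : ℕ) : ℤ) - 1) (by omega), IHf (n - 5 + ((1 : ℕ) : ℤ) - 1) (by omega),
            IHf (n - 5 + ((2 : ℕ) : ℤ) - 1) (by omega), IHf (n - 5 + ((3 : ℕ) : ℤ) - 1) (by omega),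
            IHf (n - 5 + ((4 : ℕ) : ℤ) - 1) (by omega), IHf (n - 5 + ((5 : ℕ) : ℤ) - 1) (by omega),
            IHf (n - 5 + ((0 : ℕ) : ℤ)) (by omega), IHf (n - 5 + ((1 : ℕ) : ℤ)) (by omega),
            IHf (n - 5 + ((2 : ℕ) : ℤ)) (by omega), IHf (n - 5 + ((3 : ℕ) : ℤ)) (by omega),
            IHf (n - 5 + ((4 : ℕ) : ℤ)) (by omega),
            IHg (n - 5 + ((0 : ℕ) : ℤ)) (by omega), IHg (n - 5 + ((1 : ℕ) : ℤ)) (by omega),
            IHg (n - 5 + ((2 : ℕ) : ℤ)) (by omega), IHg (n - 5 + ((3 : ℕ) : ℤ)) (by omega),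
            cJ6, coeff_C_mul, coeff_C_mul, coeff_C_mul, coeff_C_mul, coeff_C_mul, coeff_C_mul, cΔ',
            show n - 5 + ((6 : ℕ) : ℤ) - 1 = n by push_cast; ring,
            show n - 5 + ((5 : ℕ) : ℤ) = n by push_cast; ring] at c1
          have c2 : (Del p q).coeff 6 * (((n : ℂ) + 1) * f.coeff n) = 0 := by
            push_cast at c1
            linear_combination -c1
          rcases mul_eq_zero.1 c2 with h | h
          · exact absurd h hdeg
          · exact (mul_eq_zero.1 h).resolve_left hn1'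
        · have c1 := congrArg (fun φ : LS => φ.coeff (n - 6)) h₂
          simp only [HahnSeries.coeff_add] at c1
          rw [coeff_px_mul (N := 7) (by omega), coeff_px_mul dΔ3, coeff_px_mul dpJ] at c1
          simp only [Finset.sum_range_succ, Finset.sum_range_zero, DD_coeff] at c1
          rw [IHg (n - 6 + ((0 : ℕ) : ℤ) - 1) (by omega), IHg (n - 6 + ((1 : ℕ) : ℤ) - 1) (by omega),
            IHg (n - 6 + ((2 : ℕ) : ℤ) - 1) (by omega), IHg (n - 6 + ((3 : ℕ) : ℤ) - 1) (by omega),
            IHg (n - 6 + ((4 : ℕ) : ℤ) - 1) (by omega), IHg (n - 6 + ((5 : ℕ) : ℤ) - 1) (by omega),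
            IHg (n - 6 + ((0 : ℕ) : ℤ)) (by omega), IHg (n - 6 + ((1 : ℕ) : ℤ)) (by omega),
            IHg (n - 6 + ((2 : ℕ) : ℤ)) (by omega), IHg (n - 6 + ((3 : ℕ) : ℤ)) (by omega),
            IHg (n - 6 + ((4 : ℕ) : ℤ)) (by omega),
            IHf (n - 6 + ((0 : ℕ) : ℤ)) (by omega), IHf (n - 6 + ((1 : ℕ) : ℤ)) (by omega),
            IHf (n - 6 + ((2 : ℕ) : ℤ)) (by omega), IHf (n - 6 + ((3 : ℕ) : ℤ)) (by omega),
            IHf (n - 6 + ((4 : ℕ) : ℤ)) (by omega), IHf (n - 6 + ((5 : ℕ) : ℤ)) (by omega),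
            cpJ, coeff_C_mul, coeff_C_mul, coeff_C_mul, coeff_C_mul, coeff_C_mul, coeff_C_mul, cΔ',
            show n - 6 + ((6 : ℕ) : ℤ) - 1 = n - 1 by push_cast; ring,
            show n - 6 + ((5 : ℕ) : ℤ) = n - 1 by push_cast; ring] at c1
          have c2 : (Del p q).coeff 6 * (((n : ℂ) + 1) * g.coeff (n - 1)) = 0 := by
            push_cast at c1
            linear_combination -c1
          rcases mul_eq_zero.1 c2 with h | h
          · exact absurd h hdeg
          · exact (mul_eq_zero.1 h).resolve_left hn1'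
  intro n hn
  exact key (n - N + 1).toNat n (by omega) hn

end Pool.Agent.H62c
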