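import Mathlib

set_option autoImplicit false

namespace Pool.Agent.H62c

open MeasureTheory

/-- The value at the point `z = x + i y` of the real cubic polynomial with coefficient vector `c`:
`c0 + c1 x + c2 y + c3 x^2 + c4 x y + c5 y^2 + c6 x^3 + c7 x^2 y + c8 x y^2 + c9 y^3`. -/
def cubic (c : Fin 10 → ℝ) (z : ℂ) : ℝ :=
  c 0 + c 1 * z.re + c 2 * z.im + c 3 * z.re ^ 2 + c 4 * (z.re * z.im) + c 5 * z.im ^ 2 +
    c 6 * z.re ^ 3 + c 7 * (z.re ^ 2 * z.im) + c 8 * (z.re * z.im ^ 2) + c 9 * z.im ^ 3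

/-- The real zero set of the cubic, inside the plane of complex numbers. -/
def zeroSet (c : Fin 10 → ℝ) : Set ℂ := {z | cubic c z = 0}

/-- `Γ` is a compact oval of the cubic: a compact connected component of the real zero set. -/
def IsOval (c : Fin 10 → ℝ) (Γ : Set ℂ) : Prop :=
  IsCompact Γ ∧ ∃ z ∈ zeroSet c, Γ = connectedComponentIn (zeroSet c) z

/-- `Ω` is a bounded domain enclosed by `Γ`: a bounded connected component of the complement
of `Γ`. -/
def Encloses (Γ Ω : Set ℂ) : Prop :=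
  Bornology.IsBounded Ω ∧ ∃ z, z ∉ Γ ∧ Ω = connectedComponentIn Γᶜ z

/-- The exterior Cauchy transform `z ↦ (1/π) ∫_Ω dA(ζ)/(z - ζ)`. -/
noncomputable def cauchyTransform (Ω : Set ℂ) (z : ℂ) : ℂ :=
  (1 / (Real.pi : ℂ)) * ∫ ζ in Ω, 1 / (z - ζ)

/-- The unbounded component `U` of the complement of the closure of `Ω`. -/
def outer (Ω : Set ℂ) : Set ℂ :=
  {z | z ∉ closure Ω ∧ ¬ Bornology.IsBounded (connectedComponentIn (closure Ω)ᶜ z)}

/-- The exterior Cauchy transform of `Ω` is algebraic: some nonzero `Q` in two variables satisfies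
`Q(z, C_Ω(z)) = 0` on `U`. -/
def AlgebraicCT (Ω : Set ℂ) : Prop :=
  ∃ Q : MvPolynomial (Fin 2) ℂ, Q ≠ 0 ∧
    ∀ z ∈ outer Ω, MvPolynomial.eval ![z, cauchyTransform Ω z] Q = 0

end Pool.Agent.H62c
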