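import Mathlib

set_option autoImplicit false

namespace Pool.Agent.H62c

open Finset

/-- Evaluation of a power series at `t`, with absolute convergence at radius `ρ`. -/
def HasEv (ρ : ℝ) (t : ℂ) (φ : PowerSeries ℂ) (a : ℂ) : Prop :=
  (Summable fun n => ‖PowerSeries.coeff n φ‖ * ρ ^ n) ∧
    HasSum (fun n => PowerSeries.coeff n φ * t ^ n) a

variable {ρ : ℝ} {t : ℂ} {φ ψ : PowerSeries ℂ} {a b : ℂ}

theorem HasEv.add (h : HasEv ρ t φ a) (h' : HasEv ρ t ψ b) (hρ : 0 ≤ ρ) :
    HasEv ρ t (φ + ψ) (a + b) := by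
  refine ⟨?_, ?_⟩
  · refine Summable.of_nonneg_of_le (fun n => by positivity) (fun n => ?_) (h.1.add h'.1)
    rw [map_add, ← add_mul]
    exact mul_le_mul_of_nonneg_right (norm_add_le _ _) (by positivity)
  · have := h.2.add h'.2
    refine this.congr_fun ?_
    intro n
    rw [map_add]
    ring

theorem HasEv.mul (h : HasEv ρ t φ a) (h' : HasEv ρ t ψ b) (hρ : 0 ≤ ρ) (ht : ‖t‖ ≤ ρ) :
    HasEv ρ t (φ * ψ) (a * b) := by
  refine ⟨?_, ?_⟩
  · have s1 : Summable fun n => ‖(‖PowerSeries.coeff n φ‖ * ρ ^ n : ℝ)‖ := by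
      simpa using h.1.norm
    have s2 : Summable fun n => ‖(‖PowerSeries.coeff n ψ‖ * ρ ^ n : ℝ)‖ := by
      simpa using h'.1.norm
    have s3 := summable_norm_sum_mul_antidiagonal_of_summable_norm s1 s2
    refine Summable.of_nonneg_of_le (fun n => by positivity) (fun n => ?_) s3
    rw [PowerSeries.coeff_mul]
    refine le_trans ?_ (le_abs_self _)
    calc ‖∑ p ∈ antidiagonal n, PowerSeries.coeff p.1 φ * PowerSeries.coeff p.2 ψ‖ * ρ ^ n
        ≤ (∑ p ∈ antidiagonal n, ‖PowerSeries.coeff p.1 φ‖ * ‖PowerSeries.coeff p.2 ψ‖) * ρ ^ n := by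
          apply mul_le_mul_of_nonneg_right _ (by positivity)
          refine (norm_sum_le _ _).trans (Finset.sum_le_sum fun p _ => ?_)
          rw [norm_mul]
      _ = ∑ p ∈ antidiagonal n, (‖PowerSeries.coeff p.1 φ‖ * ρ ^ p.1) *
          (‖PowerSeries.coeff p.2 ψ‖ * ρ ^ p.2) := by
          rw [Finset.sum_mul]
          apply Finset.sum_congr rfl
          intro p hp
          rw [← mem_antidiagonal.1 hp, pow_add]
          ring
  · have n1 : Summable fun n => ‖PowerSeries.coeff n φ * t ^ n‖ := by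
      refine Summable.of_nonneg_of_le (fun n => norm_nonneg _) (fun n => ?_) h.1
      rw [norm_mul, norm_pow]
      gcongr
    have n2 : Summable fun n => ‖PowerSeries.coeff n ψ * t ^ n‖ := by
      refine Summable.of_nonneg_of_le (fun n => norm_nonneg _) (fun n => ?_) h'.1
      rw [norm_mul, norm_pow]
      gcongr
    have e := tsum_mul_tsum_eq_tsum_sum_antidiagonal_of_summable_norm n1 n2
    rw [h.2.tsum_eq, h'.2.tsum_eq] at e
    have hs := (summable_norm_sum_mul_antidiagonal_of_summable_norm n1 n2).of_norm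
    have hh := hs.hasSum
    rw [← e] at hh
    refine hh.congr_fun ?_
    intro n
    rw [PowerSeries.coeff_mul, Finset.sum_mul]
    apply Finset.sum_congr rfl
    intro p hp
    rw [← mem_antidiagonal.1 hp, pow_add]
    ring

theorem HasEv.C (c : ℂ) : HasEv ρ t (PowerSeries.C c) c := by
  have hc : ∀ n, n ≠ 0 → PowerSeries.coeff n (PowerSeries.C c) = 0 := by
    intro n hn
    rw [PowerSeries.coeff_C, if_neg hn]
  refine ⟨summable_of_ne_finset_zero (s := {0}) ?_, ?_⟩
  · intro n hn
    rw [hc n (by simpa using hn)]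
    simp
  · have := hasSum_single (f := fun n => PowerSeries.coeff n (PowerSeries.C c) * t ^ n) 0
      (fun n hn => by simp only [hc n hn, zero_mul])
    simpa [PowerSeries.coeff_C] using this

theorem HasEv.X : HasEv ρ t PowerSeries.X t := by
  have hc : ∀ n, n ≠ 1 → PowerSeries.coeff n (PowerSeries.X : PowerSeries ℂ) = 0 := by
    intro n hn
    rw [PowerSeries.coeff_X, if_neg hn]
  refine ⟨summable_of_ne_finset_zero (s := {1}) ?_, ?_⟩
  · intro n hn
    rw [hc n (by simpa using hn)]
    simp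
  · have := hasSum_single (f := fun n => PowerSeries.coeff n (PowerSeries.X : PowerSeries ℂ) * t ^ n) 1
      (fun n hn => by simp only [hc n hn, zero_mul])
    simpa [PowerSeries.coeff_X] using this

theorem HasEv.pow (h : HasEv ρ t φ a) (hρ : 0 ≤ ρ) (ht : ‖t‖ ≤ ρ) (n : ℕ) :
    HasEv ρ t (φ ^ n) (a ^ n) := by
  induction n with
  | zero =>
    rw [pow_zero, pow_zero, ← map_one PowerSeries.C]
    exact HasEv.C 1
  | succ n ih =>
    rw [pow_succ, pow_succ]
    exact ih.mul h hρ ht

theorem HasEv.sum {ι : Type*} (s : Finset ι) {f : ι → PowerSeries ℂ} {g : ι → ℂ}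
    (h : ∀ i ∈ s, HasEv ρ t (f i) (g i)) (hρ : 0 ≤ ρ) :
    HasEv ρ t (∑ i ∈ s, f i) (∑ i ∈ s, g i) := by
  classical
  induction s using Finset.induction_on with
  | empty =>
    rw [Finset.sum_empty, Finset.sum_empty, ← map_zero PowerSeries.C]
    exact HasEv.C 0
  | insert i s hi ih =>
    rw [Finset.sum_insert hi, Finset.sum_insert hi]
    exact (h i (Finset.mem_insert_self i s)).add
      (ih fun j hj => h j (Finset.mem_insert_of_mem hj)) hρ

/-- Uniqueness of power series expansions. -/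
theorem eq_zero_of_hasEv {ρ : ℝ} (hρ : 0 < ρ) {φ : PowerSeries ℂ}
    (h : ∀ t : ℂ, t ≠ 0 → ‖t‖ ≤ ρ → HasEv ρ t φ 0) : φ = 0 := by
  ext n
  rw [map_zero]
  induction n using Nat.strong_induction_on with
  | _ n ih =>
    have hsum : Summable fun k => ‖PowerSeries.coeff (k + n) φ‖ * ρ ^ k := by
      have h1 := (h ρ (by exact_mod_cast hρ.ne') (by rw [Complex.norm_real]; exact (abs_of_pos hρ).le)).1
      have h2 := (summable_nat_add_iff n).2 h1
      have h3 := h2.mul_left (ρ ^ n)⁻¹
      refine h3.congr fun k => ?_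
      rw [pow_add]
      field_simp
    set K : ℝ := ∑' k, ‖PowerSeries.coeff (k + 1 + n) φ‖ * ρ ^ k with hK
    have hsum1 : Summable fun k => ‖PowerSeries.coeff (k + 1 + n) φ‖ * ρ ^ k := by
      have h2 := (summable_nat_add_iff 1).2 hsum
      have h3 := h2.mul_left ρ⁻¹
      refine h3.congr fun k => ?_
      rw [pow_succ]
      field_simp
    have hb : ∀ t : ℂ, t ≠ 0 → ‖t‖ ≤ ρ → ‖PowerSeries.coeff n φ‖ ≤ ‖t‖ * K := by
      intro t ht0 ht
      have h1 := (h t ht0 ht).2
      have h2 : HasSum (fun k => PowerSeries.coeff (k + n) φ * t ^ (k + n)) 0 := by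
        have := (hasSum_nat_add_iff' n).2 h1
        rw [Finset.sum_eq_zero, sub_zero] at this
        · exact this
        · intro i hi
          rw [ih i (Finset.mem_range.1 hi), zero_mul]
      have h3 : HasSum (fun k => PowerSeries.coeff (k + n) φ * t ^ k) 0 := by
        have := h2.mul_left ((t ^ n)⁻¹)
        rw [mul_zero] at this
        refine this.congr_fun fun k => ?_
        rw [pow_add]
        field_simp
      have h4 := (hasSum_nat_add_iff' 1).2 h3
      rw [Finset.sum_range_one, zero_add, pow_zero, mul_one, zero_sub] at h4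
      have h5 : ‖-PowerSeries.coeff n φ‖ ≤ ‖t‖ * K := by
        rw [← h4.tsum_eq, hK, ← tsum_mul_left]
        apply tsum_of_norm_bounded (hsum1.mul_left ‖t‖).hasSum
        intro k
        rw [norm_mul, norm_pow, pow_succ]
        have : ‖t‖ ^ k ≤ ρ ^ k := by gcongr
        calc ‖PowerSeries.coeff (k + 1 + n) φ‖ * (‖t‖ ^ k * ‖t‖)
            = ‖t‖ * (‖PowerSeries.coeff (k + 1 + n) φ‖ * ‖t‖ ^ k) := by ring
          _ ≤ _ := by gcongr
      rwa [norm_neg] at h5
    have hK0 : 0 ≤ K := tsum_nonneg fun k => by positivity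
    by_contra hne
    have hpos := norm_pos_iff.2 hne
    set τ : ℝ := min ρ (‖PowerSeries.coeff n φ‖ / (2 * (K + 1))) with hτ
    have hτpos : 0 < τ := lt_min hρ (by positivity)
    have h6 := hb τ (by exact_mod_cast hτpos.ne')
      (by rw [Complex.norm_real, Real.norm_eq_abs, abs_of_pos hτpos]; exact min_le_left _ _)
    rw [Complex.norm_real, Real.norm_eq_abs, abs_of_pos hτpos] at h6
    have h7 : τ * K ≤ ‖PowerSeries.coeff n φ‖ / 2 := by
      calc τ * K ≤ (‖PowerSeries.coeff n φ‖ / (2 * (K + 1))) * (K + 1) := by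
            apply mul_le_mul (min_le_right _ _) (by linarith) hK0 (by positivity)
        _ = _ := by field_simp
    linarith

end Pool.Agent.H62c
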