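import Mathlib

set_option autoImplicit false

namespace Pool.Agent.H62c

open MeasureTheory Set

theorem exists_frontier {Ω t : Set ℂ} (ho : IsOpen Ω) (ht : IsPreconnected t) {x y : ℂ}
    (hxt : x ∈ t) (hyt : y ∈ t) (hx : x ∈ Ω) (hy : y ∉ Ω) : ∃ z ∈ t, z ∈ frontier Ω := by
  by_contra h
  push Not at h
  have h1 : t ⊆ Ω := by
    refine ht.subset_of_closure_inter_subset ho ⟨x, hxt, hx⟩ ?_
    rintro z ⟨hz, hzt⟩
    by_contra hzΩ
    apply h z hzt
    rw [ho.frontier_eq]
    exact ⟨hz, hzΩ⟩
  exact hy (h1 hyt)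

theorem stokes_real {Ω : Set ℂ} (ho : IsOpen Ω) (hb : Bornology.IsBounded Ω)
    (hn : volume (frontier Ω) = 0) {H : ℂ → ℝ} (hH : ContDiff ℝ 1 H)
    (h0 : ∀ x ∈ frontier Ω, H x = 0) (v : ℂ) : ∫ x in Ω, fderiv ℝ H x v = 0 := by
  obtain ⟨R, hR⟩ := hb.closure.subset_closedBall (0 : ℂ)
  obtain ⟨K, hK⟩ := hH.contDiffOn.exists_lipschitzOnWith one_ne_zero (convex_closedBall (0 : ℂ) R)
    (isCompact_closedBall (0 : ℂ) R)
  set G : ℂ → ℝ := Ω.indicator H with hG
  have hdist : ∀ x ∈ Ω, ∀ y, y ∉ Ω → |H x| ≤ K * dist x y := by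
    intro x hx y hy
    obtain ⟨z, hz, hzf⟩ := exists_frontier ho (convex_segment x y).isPreconnected
      (left_mem_segment ℝ x y) (right_mem_segment ℝ x y) hx hy
    have h1 := hK.dist_le_mul x (hR (subset_closure hx)) z (hR (frontier_subset_closure hzf))
    rw [h0 z hzf, Real.dist_eq, sub_zero] at h1
    refine h1.trans (mul_le_mul_of_nonneg_left ?_ K.2)
    have h2 := dist_add_dist_of_mem_segment hz
    have h3 : 0 ≤ dist z y := dist_nonneg
    linarith
  have hL : LipschitzWith K G := by
    apply LipschitzWith.of_dist_le_mul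
    intro x y
    by_cases hx : x ∈ Ω
    · by_cases hy : y ∈ Ω
      · rw [hG, indicator_of_mem hx, indicator_of_mem hy]
        exact hK.dist_le_mul x (hR (subset_closure hx)) y (hR (subset_closure hy))
      · rw [hG, indicator_of_mem hx, indicator_of_notMem hy, Real.dist_eq, sub_zero]
        exact hdist x hx y hy
    · by_cases hy : y ∈ Ω
      · rw [hG, indicator_of_notMem hx, indicator_of_mem hy, Real.dist_eq, zero_sub, abs_neg,
          dist_comm]
        exact hdist y hy x hx
      · rw [hG, indicator_of_notMem hx, indicator_of_notMem hy, dist_self]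
        positivity
  have hcs : HasCompactSupport G := by
    apply HasCompactSupport.of_support_subset_isCompact (isCompact_closedBall (0 : ℂ) R)
    intro x hx
    have : x ∈ Ω := by
      by_contra hxΩ
      exact hx (indicator_of_notMem hxΩ H)
    exact hR (subset_closure this)
  have hmain := LipschitzWith.integral_lineDeriv_mul_eq (μ := (volume : Measure ℂ))
    (LipschitzWith.const (1 : ℝ)) hL hcs (-v)
  have h1 : ∀ x : ℂ, lineDeriv ℝ (fun _ : ℂ => (1 : ℝ)) x (-v) = 0 := by
    intro x
    simp [lineDeriv]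
  simp only [h1, zero_mul, integral_zero, mul_one, neg_neg] at hmain
  have hae : ∀ᵐ x : ℂ, lineDeriv ℝ G x v = Ω.indicator (fun x => fderiv ℝ H x v) x := by
    have : ∀ᵐ x : ℂ, x ∉ frontier Ω := measure_eq_zero_iff_ae_notMem.1 hn
    filter_upwards [this] with x hx
    by_cases hxΩ : x ∈ Ω
    · rw [indicator_of_mem hxΩ]
      have hev : G =ᶠ[nhds x] H := by
        filter_upwards [ho.mem_nhds hxΩ] with y hy
        exact indicator_of_mem hy H
      rw [hev.lineDeriv_eq]
      exact ((hH.differentiable one_ne_zero) x).lineDeriv_eq_fderiv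
    · rw [indicator_of_notMem hxΩ]
      have hcl : x ∉ closure Ω := by
        intro h
        apply hx
        rw [ho.frontier_eq]
        exact ⟨h, hxΩ⟩
      have hev : G =ᶠ[nhds x] (fun _ => (0 : ℝ)) := by
        filter_upwards [isClosed_closure.isOpen_compl.mem_nhds hcl] with y hy
        exact indicator_of_notMem (fun h => hy (subset_closure h)) H
      rw [hev.lineDeriv_eq]
      simp [lineDeriv]
  rw [integral_congr_ae hae, integral_indicator ho.measurableSet] at hmain
  exact hmain.symm

theorem integrableOn_bdd {Ω : Set ℂ} (hb : Bornology.IsBounded Ω) {E : Type*}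
    [NormedAddCommGroup E] {F : ℂ → E} (hF : Continuous F) : IntegrableOn F Ω := by
  obtain ⟨R, hR⟩ := hb.subset_closedBall (0 : ℂ)
  exact (hF.continuousOn.integrableOn_compact (isCompact_closedBall (0 : ℂ) R)).mono_set hR

theorem stokes {Ω : Set ℂ} (ho : IsOpen Ω) (hb : Bornology.IsBounded Ω)
    (hn : volume (frontier Ω) = 0) {H : ℂ → ℂ} (hH : ContDiff ℝ 1 H)
    (h0 : ∀ x ∈ frontier Ω, H x = 0) (v : ℂ) : ∫ x in Ω, fderiv ℝ H x v = 0 := by
  have hint : IntegrableOn (fun x => fderiv ℝ H x v) Ω :=
    integrableOn_bdd hb ((hH.continuous_fderiv one_ne_zero).clm_apply continuous_const)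
  have hre := stokes_real ho hb hn (H := fun x => (H x).re) (Complex.reCLM.contDiff.comp hH)
    (fun x hx => by rw [h0 x hx, Complex.zero_re]) v
  have him := stokes_real ho hb hn (H := fun x => (H x).im) (Complex.imCLM.contDiff.comp hH)
    (fun x hx => by rw [h0 x hx, Complex.zero_im]) v
  have hd : ∀ x, DifferentiableAt ℝ H x := fun x => (hH.differentiable one_ne_zero) x
  have e1 : ∀ x, fderiv ℝ (fun x => (H x).re) x v = (fderiv ℝ H x v).re := by
    intro x
    have : HasFDerivAt (fun x => (H x).re) (Complex.reCLM.comp (fderiv ℝ H x)) x :=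
      Complex.reCLM.hasFDerivAt.comp x (hd x).hasFDerivAt
    rw [this.fderiv]
    rfl
  have e2 : ∀ x, fderiv ℝ (fun x => (H x).im) x v = (fderiv ℝ H x v).im := by
    intro x
    have : HasFDerivAt (fun x => (H x).im) (Complex.imCLM.comp (fderiv ℝ H x)) x :=
      Complex.imCLM.hasFDerivAt.comp x (hd x).hasFDerivAt
    rw [this.fderiv]
    rfl
  simp only [e1] at hre
  simp only [e2] at him
  apply Complex.ext
  · have := Complex.reCLM.integral_comp_comm hint
    simp only [Complex.reCLM_apply] at this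
    rw [← this, hre, Complex.zero_re]
  · have := Complex.imCLM.integral_comp_comm hint
    simp only [Complex.imCLM_apply] at this
    rw [← this, him, Complex.zero_im]

end Pool.Agent.H62c
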