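import Mathlib
import Pool.Agent.H62c.Stokes

set_option autoImplicit false

namespace Pool.Agent.H62c

open MeasureTheory Set Polynomial ComplexConjugate

/-- `F` is `C^1` with derivatives `Fz`, `Fs` in the coordinates `z`, `s = conj z + b z`. -/
def WD (b : ℂ[X]) (F Fz Fs : ℂ → ℂ) : Prop :=
  ContDiff ℝ 1 F ∧ Continuous Fz ∧ Continuous Fs ∧
    ∀ z v, fderiv ℝ F z v = Fz z * v + Fs z * (conj v + (derivative b).eval z * v)

variable {b : ℂ[X]} {F Fz Fs G Gz Gs : ℂ → ℂ}

theorem WD.congr {F' Fz' Fs' : ℂ → ℂ} (h : WD b F Fz Fs) (h1 : ∀ z, F' z = F z)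
    (h2 : ∀ z, Fz' z = Fz z) (h3 : ∀ z, Fs' z = Fs z) : WD b F' Fz' Fs' := by
  rwa [funext h1, funext h2, funext h3]

theorem WD.add (h : WD b F Fz Fs) (h' : WD b G Gz Gs) :
    WD b (fun z => F z + G z) (fun z => Fz z + Gz z) (fun z => Fs z + Gs z) := by
  obtain ⟨a1, a2, a3, a4⟩ := h
  obtain ⟨b1, b2, b3, b4⟩ := h'
  refine ⟨a1.add b1, a2.add b2, a3.add b3, ?_⟩
  intro z v
  have e : fderiv ℝ (fun z => F z + G z) z = fderiv ℝ F z + fderiv ℝ G z :=
    fderiv_fun_add (a1.differentiable one_ne_zero z) (b1.differentiable one_ne_zero z)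
  rw [e, add_apply, a4, b4]
  ring

theorem WD.mul (h : WD b F Fz Fs) (h' : WD b G Gz Gs) :
    WD b (fun z => F z * G z) (fun z => F z * Gz z + Fz z * G z)
      (fun z => F z * Gs z + Fs z * G z) := by
  obtain ⟨a1, a2, a3, a4⟩ := h
  obtain ⟨b1, b2, b3, b4⟩ := h'
  refine ⟨a1.mul b1, (a1.continuous.mul b2).add (a2.mul b1.continuous),
    (a1.continuous.mul b3).add (a3.mul b1.continuous), ?_⟩
  intro z v
  have e : fderiv ℝ (fun z => F z * G z) z = F z • fderiv ℝ G z + G z • fderiv ℝ F z :=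
    fderiv_fun_mul (a1.differentiable one_ne_zero z) (b1.differentiable one_ne_zero z)
  rw [e, add_apply, smul_apply,
    smul_apply, a4, b4, smul_eq_mul, smul_eq_mul]
  ring

theorem WD.const (c : ℂ) : WD b (fun _ => c) (fun _ => 0) (fun _ => 0) := by
  refine ⟨contDiff_const, continuous_const, continuous_const, ?_⟩
  intro z v
  rw [fderiv_const_apply]
  simp

theorem contDiff_polyeval (A : ℂ[X]) : ContDiff ℂ 1 (fun z => A.eval z) := by
  simpa using Polynomial.contDiff_aeval A 1 (𝕜 := ℂ) (R := ℂ)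

theorem hasFDerivAt_poly (A : ℂ[X]) (z : ℂ) :
    HasFDerivAt (𝕜 := ℝ) (fun z => A.eval z)
      ((ContinuousLinearMap.toSpanSingleton ℂ ((derivative A).eval z)).restrictScalars ℝ) z :=
  (A.hasDerivAt z).hasFDerivAt.restrictScalars ℝ

theorem WD.poly (A : ℂ[X]) : WD b (fun z => A.eval z) (fun z => (derivative A).eval z)
    (fun _ => 0) := by
  refine ⟨?_, Polynomial.continuous _, continuous_const, ?_⟩
  · exact (contDiff_polyeval A).restrict_scalars ℝ
  · intro z v
    rw [(hasFDerivAt_poly A z).fderiv]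
    simp [mul_comm]

/-- the coordinate `s` -/
noncomputable def sf (b : ℂ[X]) (z : ℂ) : ℂ := conj z + b.eval z

theorem WD.sf : WD b (sf b) (fun _ => 0) (fun _ => 1) := by
  refine ⟨?_, continuous_const, continuous_const, ?_⟩
  · exact (Complex.conjCLE.contDiff).add ((contDiff_polyeval b).restrict_scalars ℝ)
  · intro z v
    have h1 : HasFDerivAt (𝕜 := ℝ) (fun z : ℂ => conj z) (Complex.conjCLE : ℂ →L[ℝ] ℂ) z :=
      Complex.conjCLE.hasFDerivAt
    have h2 := h1.add (hasFDerivAt_poly b z)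
    have h3 : fderiv ℝ (Pool.Agent.H62c.sf b) z = _ := h2.fderiv
    rw [h3]
    simp [mul_comm]

theorem WD.smul (h : WD b F Fz Fs) (c : ℂ) :
    WD b (fun z => c * F z) (fun z => c * Fz z) (fun z => c * Fs z) :=
  ((WD.const c).mul h).congr (fun _ => rfl) (fun z => by ring) (fun z => by ring)

theorem WD.neg (h : WD b F Fz Fs) :
    WD b (fun z => -F z) (fun z => -Fz z) (fun z => -Fs z) :=
  (h.smul (-1)).congr (fun z => by ring) (fun z => by ring) (fun z => by ring)

theorem WD.sub (h : WD b F Fz Fs) (h' : WD b G Gz Gs) :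
    WD b (fun z => F z - G z) (fun z => Fz z - Gz z) (fun z => Fs z - Gs z) :=
  (h.add h'.neg).congr (fun z => by ring) (fun z => by ring) (fun z => by ring)

theorem WD.pow (h : WD b F Fz Fs) (n : ℕ) :
    WD b (fun z => F z ^ n) (fun z => n * F z ^ (n - 1) * Fz z)
      (fun z => n * F z ^ (n - 1) * Fs z) := by
  induction n with
  | zero =>
    exact (WD.const 1).congr (fun z => by simp) (fun z => by simp) (fun z => by simp)
  | succ n ih =>
    refine (ih.mul h).congr (fun z => by rw [pow_succ]) (fun z => ?_) (fun z => ?_)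
    · rcases n with _ | n
      · simp
      · simp only [Nat.add_one_sub_one, pow_succ]
        push_cast
        ring
    · rcases n with _ | n
      · simp
      · simp only [Nat.add_one_sub_one, pow_succ]
        push_cast
        ring

variable {Ω : Set ℂ}

theorem WD.int_two (h : WD b F Fz Fs) (ho : IsOpen Ω) (hb : Bornology.IsBounded Ω)
    (hn : volume (frontier Ω) = 0) (h0 : ∀ x ∈ frontier Ω, F x = 0) :
    ∫ z in Ω, Fs z = 0 ∧ ∫ z in Ω, (Fz z + (derivative b).eval z * Fs z) = 0 := by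
  obtain ⟨a1, a2, a3, a4⟩ := h
  have s1 := stokes ho hb hn a1 h0 1
  have s2 := stokes ho hb hn a1 h0 Complex.I
  have hbc : Continuous fun z : ℂ => (derivative b).eval z := Polynomial.continuous _
  have i1 : IntegrableOn Fs Ω := integrableOn_bdd hb a3
  have i2 : IntegrableOn (fun z => Fz z + (derivative b).eval z * Fs z) Ω :=
    integrableOn_bdd hb (a2.add (hbc.mul a3))
  have e1 : ∀ z, fderiv ℝ F z 1 = Fs z + (Fz z + (derivative b).eval z * Fs z) := by
    intro z
    rw [a4, map_one]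
    ring
  have e2 : ∀ z, fderiv ℝ F z Complex.I =
      Complex.I * ((Fz z + (derivative b).eval z * Fs z) - Fs z) := by
    intro z
    rw [a4, Complex.conj_I]
    ring
  simp only [e1] at s1
  simp only [e2] at s2
  rw [integral_add i1 i2] at s1
  rw [integral_const_mul, integral_sub i2 i1] at s2
  have s3 := (mul_eq_zero.1 s2).resolve_left Complex.I_ne_zero
  constructor
  · linear_combination (s1 - s3) / 2
  · linear_combination (s1 + s3) / 2

theorem WD.int_s (h : WD b F Fz Fs) (ho : IsOpen Ω) (hb : Bornology.IsBounded Ω)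
    (hn : volume (frontier Ω) = 0) (h0 : ∀ x ∈ frontier Ω, F x = 0) :
    ∫ z in Ω, Fs z = 0 := (h.int_two ho hb hn h0).1

theorem WD.int_z (h : WD b F Fz Fs) (ho : IsOpen Ω) (hb : Bornology.IsBounded Ω)
    (hn : volume (frontier Ω) = 0) (h0 : ∀ x ∈ frontier Ω, F x = 0) :
    ∫ z in Ω, Fz z = 0 := by
  have h1 := (h.int_two ho hb hn h0).2
  have h2 := ((WD.poly (derivative b)).mul h).int_s ho hb hn
    (fun x hx => by simp only [h0 x hx, mul_zero])
  have hbc : Continuous fun z : ℂ => (derivative b).eval z := Polynomial.continuous _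
  have i1 : IntegrableOn Fz Ω := integrableOn_bdd hb h.2.1
  have i2 : IntegrableOn (fun z => (derivative b).eval z * Fs z) Ω :=
    integrableOn_bdd hb (hbc.mul h.2.2.1)
  rw [integral_add i1 i2] at h1
  simp only [zero_mul, add_zero] at h2
  rw [h2, add_zero] at h1
  exact h1

end Pool.Agent.H62c
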