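import Mathlib
import Pool.Agent.H62c.WD
import Pool.Agent.H62c.Laurent
import Pool.Agent.H62c.Core

set_option autoImplicit false

namespace Pool.Agent.H62c

open MeasureTheory Set Polynomial ComplexConjugate

/-- The Laurent series of moments of `φ`. -/
noncomputable def MS (Ω : Set ℂ) (φ : ℂ → ℂ) : LS :=
  HahnSeries.ofSuppBddBelow (fun n : ℤ => if 1 ≤ n then ∫ z in Ω, z ^ (n - 1).toNat * φ z else 0)
    ⟨0, by
      intro n hn
      by_contra h
      apply hn
      exact if_neg (by omega)⟩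

theorem MS_coeff (Ω : Set ℂ) (φ : ℂ → ℂ) (n : ℤ) : (MS Ω φ).coeff n =
    if 1 ≤ n then ∫ z in Ω, z ^ (n - 1).toNat * φ z else 0 := rfl

theorem MS_coeff_nat (Ω : Set ℂ) (φ : ℂ → ℂ) (k : ℕ) : (MS Ω φ).coeff ((k : ℤ) + 1) =
    ∫ z in Ω, z ^ k * φ z := by
  rw [MS_coeff, if_pos (by omega)]
  congr 2
  ext z
  rw [show ((k : ℤ) + 1 - 1).toNat = k by omega]

theorem MS_coeff_nonpos (Ω : Set ℂ) (φ : ℂ → ℂ) {n : ℤ} (hn : n < 1) : (MS Ω φ).coeff n = 0 := by
  rw [MS_coeff, if_neg (by omega)]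

theorem LS_ext {φ ψ : LS} (h : ∀ n : ℤ, n < 1 → φ.coeff n = ψ.coeff n)
    (h' : ∀ k : ℕ, φ.coeff ((k : ℤ) + 1) = ψ.coeff ((k : ℤ) + 1)) : φ = ψ := by
  ext n
  by_cases hn : n < 1
  · exact h n hn
  · obtain ⟨k, rfl⟩ : ∃ k : ℕ, n = (k : ℤ) + 1 := ⟨(n - 1).toNat, by omega⟩
    exact h' k

variable {Ω : Set ℂ} {b p q : ℂ[X]}

theorem MS_add (hb : Bornology.IsBounded Ω) {φ ψ : ℂ → ℂ} (hφ : Continuous φ) (hψ : Continuous ψ) :
    MS Ω (fun z => φ z + ψ z) = MS Ω φ + MS Ω ψ := by
  apply LS_ext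
  · intro n hn
    rw [HahnSeries.coeff_add, MS_coeff_nonpos _ _ hn, MS_coeff_nonpos _ _ hn,
      MS_coeff_nonpos _ _ hn, add_zero]
  · intro k
    rw [HahnSeries.coeff_add, MS_coeff_nat, MS_coeff_nat, MS_coeff_nat, ← integral_add]
    · simp only [mul_add]
    · exact integrableOn_bdd hb ((continuous_id.pow k).mul hφ)
    · exact integrableOn_bdd hb ((continuous_id.pow k).mul hψ)

theorem MS_zero : MS Ω (fun _ => 0) = 0 := by
  apply LS_ext
  · intro n hn
    rw [MS_coeff_nonpos _ _ hn, HahnSeries.coeff_zero]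
  · intro k
    rw [MS_coeff_nat, HahnSeries.coeff_zero]
    simp

theorem MS_smul (c : ℂ) (φ : ℂ → ℂ) :
    MS Ω (fun z => c * φ z) = HahnSeries.C c * MS Ω φ := by
  have hc : ∀ n, (HahnSeries.C c * MS Ω φ).coeff n = c * (MS Ω φ).coeff n := by
    intro n
    rw [HahnSeries.C_apply, HahnSeries.coeff_single_zero_mul]
  apply LS_ext
  · intro n hn
    rw [hc, MS_coeff_nonpos _ _ hn, MS_coeff_nonpos _ _ hn, mul_zero]
  · intro k
    rw [hc, MS_coeff_nat, MS_coeff_nat, ← integral_const_mul]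
    congr 2
    ext z
    ring

theorem MS_mul_z (φ : ℂ → ℂ) :
    MS Ω (fun z => z * φ z) = xx * MS Ω φ - HahnSeries.C (∫ z in Ω, φ z) := by
  have hc : ∀ n, (xx * MS Ω φ).coeff n = (MS Ω φ).coeff (n + 1) := by
    intro n
    have := coeff_xx_pow_mul 1 (MS Ω φ) n
    rw [pow_one] at this
    rw [this]
    norm_num
  apply LS_ext
  · intro n hn
    rw [HahnSeries.coeff_sub, hc, MS_coeff_nonpos _ _ hn, HahnSeries.C_apply]
    by_cases h0 : n = 0
    · subst h0
      rw [HahnSeries.coeff_single_same]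
      have := MS_coeff_nat Ω φ 0
      simp only [Nat.cast_zero, pow_zero, one_mul] at this
      rw [this, sub_self]
    · rw [HahnSeries.coeff_single_of_ne h0, MS_coeff_nonpos _ _ (by omega), sub_zero]
  · intro k
    rw [HahnSeries.coeff_sub, hc, MS_coeff_nat, HahnSeries.C_apply,
      HahnSeries.coeff_single_of_ne (by omega), sub_zero]
    have := MS_coeff_nat Ω φ (k + 1)
    push_cast at this
    rw [this]
    congr 2
    ext z
    ring

theorem MS_poly (hb : Bornology.IsBounded Ω) {φ : ℂ → ℂ} (hφ : Continuous φ) (A : ℂ[X]) :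
    IsPoly (MS Ω (fun z => A.eval z * φ z) - px A * MS Ω φ) := by
  induction A using Polynomial.induction_on' with
  | add A B hA hB =>
    have e : MS Ω (fun z => (A + B).eval z * φ z) =
        MS Ω (fun z => A.eval z * φ z) + MS Ω (fun z => B.eval z * φ z) := by
      have c1 : Continuous fun z => A.eval z * φ z := A.continuous.mul hφ
      have c2 : Continuous fun z => B.eval z * φ z := B.continuous.mul hφ
      rw [← MS_add hb c1 c2]
      congr 1
      ext z
      rw [eval_add]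
      ring
    rw [e, map_add]
    have := hA.add hB
    convert this using 1
    ring
  | monomial n a =>
    induction n with
    | zero =>
      have e : MS Ω (fun z => (monomial 0 a).eval z * φ z) = HahnSeries.C a * MS Ω φ := by
        rw [← MS_smul]
        congr 1
        ext z
        simp
      rw [e, monomial_zero_left, px_C, sub_self]
      exact IsPoly.zero
    | succ n ih =>
      have e : MS Ω (fun z => (monomial (n + 1) a).eval z * φ z) =
          MS Ω (fun z => z * ((monomial n a).eval z * φ z)) := by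
        congr 1
        ext z
        rw [eval_monomial, eval_monomial, pow_succ]
        ring
      have h : (monomial (n + 1) a : ℂ[X]) = monomial n a * X := by
        rw [monomial_mul_X]
      rw [e, MS_mul_z, h, map_mul, px_X]
      have h1 : IsPoly (HahnSeries.C (∫ z in Ω, (monomial n a).eval z * φ z)) :=
        ⟨C _, (px_C _).symm⟩
      have h2 := ih.mul X
      rw [px_X] at h2
      convert h2.sub h1 using 1
      ring

theorem R1 {F Fz Fs : ℂ → ℂ} (h : WD b F Fz Fs) (ho : IsOpen Ω) (hb : Bornology.IsBounded Ω)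
    (hn : volume (frontier Ω) = 0) (h0 : ∀ x ∈ frontier Ω, F x = 0) : MS Ω Fs = 0 := by
  apply LS_ext
  · intro n hn
    rw [MS_coeff_nonpos _ _ hn, HahnSeries.coeff_zero]
  · intro k
    rw [MS_coeff_nat, HahnSeries.coeff_zero]
    have := ((WD.poly (b := b) (X ^ k : ℂ[X])).mul h).int_s ho hb hn
      (fun x hx => by simp only [h0 x hx, mul_zero])
    simp only [eval_pow, eval_X, zero_mul, add_zero] at this
    exact this

theorem R2 {F Fz Fs : ℂ → ℂ} (h : WD b F Fz Fs) (ho : IsOpen Ω) (hb : Bornology.IsBounded Ω)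
    (hn : volume (frontier Ω) = 0) (h0 : ∀ x ∈ frontier Ω, F x = 0) :
    MS Ω Fz = DD (MS Ω F) := by
  apply LS_ext
  · intro n hn
    rw [MS_coeff_nonpos _ _ hn, DD_coeff, MS_coeff_nonpos _ _ (by omega), mul_zero, neg_zero]
  · intro k
    rw [MS_coeff_nat, DD_coeff]
    have := ((WD.poly (b := b) (X ^ k : ℂ[X])).mul h).int_z ho hb hn
      (fun x hx => by simp only [h0 x hx, mul_zero])
    simp only [eval_pow, eval_X, derivative_X_pow, eval_mul, eval_C] at this
    rw [integral_add] at this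
    · rw [eq_neg_of_add_eq_zero_left this]
      congr 1
      rcases k with _ | k
      · simp
      · have e := MS_coeff_nat Ω F k
        rw [show ((k + 1 : ℕ) : ℤ) + 1 - 1 = (k : ℤ) + 1 by push_cast; ring, e,
          ← integral_const_mul]
        congr 2
        ext z
        simp
        ring
    · exact integrableOn_bdd hb ((continuous_id.pow k).mul h.2.1)
    · exact integrableOn_bdd hb (((continuous_const.mul (continuous_id.pow (k - 1)))).mul
        h.1.continuous)

theorem DD_ofNat (n : ℕ) [n.AtLeastTwo] : DD (OfNat.ofNat n : LS) = 0 := by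
  have h : (OfNat.ofNat n : LS) = px (C (OfNat.ofNat n)) := by
    rw [← numC, map_ofNat]
  rw [h, DD_px, derivative_C, map_zero]

/-- The function `s^3 + p s + q`. -/
noncomputable def Pt (b p q : ℂ[X]) (z : ℂ) : ℂ := sf b z ^ 3 + p.eval z * sf b z + q.eval z

theorem WD.Pt : WD b (Pt b p q)
    (fun z => (derivative p).eval z * Pool.Agent.H62c.sf b z + (derivative q).eval z)
    (fun z => 3 * Pool.Agent.H62c.sf b z ^ 2 + p.eval z) := by
  refine (((WD.sf.pow 3).add ((WD.poly p).mul WD.sf)).add (WD.poly q)).congr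
    (fun z => rfl) (fun z => ?_) (fun z => ?_)
  · push_cast
    ring
  · push_cast
    ring

theorem sf_continuous (b : ℂ[X]) : Continuous (sf b) := WD.sf.1.continuous

theorem MS_lin (hb : Bornology.IsBounded Ω) (A0 A1 A2 A3 A4 : ℂ[X]) :
    IsPoly (MS Ω (fun z => A0.eval z * 1 + A1.eval z * sf b z + A2.eval z * sf b z ^ 2 +
      A3.eval z * sf b z ^ 3 + A4.eval z * sf b z ^ 4) -
      (px A0 * MS Ω (fun _ => 1) + px A1 * MS Ω (sf b) + px A2 * MS Ω (fun z => sf b z ^ 2) +
      px A3 * MS Ω (fun z => sf b z ^ 3) + px A4 * MS Ω (fun z => sf b z ^ 4))) := by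
  have cs := sf_continuous b
  have c0 : Continuous fun z : ℂ => A0.eval z * 1 := A0.continuous.mul continuous_const
  have c1 : Continuous fun z : ℂ => A1.eval z * sf b z := A1.continuous.mul cs
  have c2 : Continuous fun z : ℂ => A2.eval z * sf b z ^ 2 := A2.continuous.mul (cs.pow 2)
  have c3 : Continuous fun z : ℂ => A3.eval z * sf b z ^ 3 := A3.continuous.mul (cs.pow 3)
  have c4 : Continuous fun z : ℂ => A4.eval z * sf b z ^ 4 := A4.continuous.mul (cs.pow 4)
  have c01 : Continuous fun z : ℂ => A0.eval z * 1 + A1.eval z * sf b z := c0.add c1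
  have c012 : Continuous fun z : ℂ => A0.eval z * 1 + A1.eval z * sf b z + A2.eval z * sf b z ^ 2 :=
    c01.add c2
  have c0123 : Continuous fun z : ℂ => A0.eval z * 1 + A1.eval z * sf b z +
    A2.eval z * sf b z ^ 2 + A3.eval z * sf b z ^ 3 := c012.add c3
  rw [MS_add hb c0123 c4, MS_add hb c012 c3, MS_add hb c01 c2, MS_add hb c0 c1]
  have h0 := MS_poly hb (φ := fun _ => 1) continuous_const A0
  have h1 := MS_poly hb cs A1
  have h2 := MS_poly hb (φ := fun z => sf b z ^ 2) (cs.pow 2) A2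
  have h3 := MS_poly hb (φ := fun z => sf b z ^ 3) (cs.pow 3) A3
  have h4 := MS_poly hb (φ := fun z => sf b z ^ 4) (cs.pow 4) A4
  convert (((h0.add h1).add h2).add h3).add h4 using 1
  ring

section relations

variable (ho : IsOpen Ω) (hb : Bornology.IsBounded Ω) (hn : volume (frontier Ω) = 0)
  (h0 : ∀ x ∈ frontier Ω, Pt b p q x = 0)

include ho hb hn h0

theorem rel_E1 : IsPoly (px (2 * p) * DD (MS Ω (sf b)) + px (3 * q) * DD (MS Ω (fun _ => 1)) -
    px (2 * derivative p) * MS Ω (sf b) - px (derivative q) * MS Ω (fun _ => 1)) := by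
  -- b
  have hB : WD b (fun z => Pt b p q z * sf b z) _ _ := WD.Pt.mul WD.sf
  have r1 := R1 hB ho hb hn (fun x hx => by simp only [h0 x hx, zero_mul])
  have l1 := MS_lin (b := b) hb q (2 * p) 0 4 0
  have e1 : (fun z => q.eval z * 1 + (2 * p).eval z * sf b z + (0 : ℂ[X]).eval z * sf b z ^ 2 +
      (4 : ℂ[X]).eval z * sf b z ^ 3 + (0 : ℂ[X]).eval z * sf b z ^ 4) =
      fun z => Pt b p q z * 1 + (3 * sf b z ^ 2 + p.eval z) * sf b z := by
    funext z
    simp only [Pt, eval_mul, eval_ofNat, eval_zero]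
    ring
  rw [e1, r1] at l1
  -- d
  have r2 := R2 (WD.Pt (b := b) (p := p) (q := q)) ho hb hn h0
  have l2 := MS_lin (b := b) hb (derivative q) (derivative p) 0 0 0
  have e2 : (fun z => (derivative q).eval z * 1 + (derivative p).eval z * sf b z +
      (0 : ℂ[X]).eval z * sf b z ^ 2 +
      (0 : ℂ[X]).eval z * sf b z ^ 3 + (0 : ℂ[X]).eval z * sf b z ^ 4) =
      fun z => (derivative p).eval z * sf b z + (derivative q).eval z := by
    funext z
    simp only [eval_zero]
    ring
  rw [e2, r2] at l2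
  have l3 := MS_lin (b := b) hb q p 0 1 0
  have e3 : (fun z => q.eval z * 1 + p.eval z * sf b z +
      (0 : ℂ[X]).eval z * sf b z ^ 2 +
      (1 : ℂ[X]).eval z * sf b z ^ 3 + (0 : ℂ[X]).eval z * sf b z ^ 4) =
      Pt b p q := by
    funext z
    simp only [Pt, eval_zero, eval_one]
    ring
  rw [e3] at l3
  obtain ⟨ρ1, hρ1⟩ := l1
  obtain ⟨ρ2, hρ2⟩ := l2
  obtain ⟨ρ3, hρ3⟩ := l3
  generalize MS Ω (fun _ => (1 : ℂ)) = M0 at *
  generalize MS Ω (sf b) = M1 at *
  generalize MS Ω (fun z => sf b z ^ 2) = M2 at *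
  generalize MS Ω (fun z => sf b z ^ 3) = M3 at *
  generalize MS Ω (fun z => sf b z ^ 4) = M4 at *
  generalize MS Ω (Pt b p q) = MP at *
  have d1 := congrArg DD hρ1
  have d3 := congrArg DD hρ3
  have D2 : DD (2 : LS) = 0 := DD_ofNat 2
  have D4 : DD (4 : LS) = 0 := DD_ofNat 4
  refine ⟨4 * ρ2 - 4 * derivative ρ3 + derivative ρ1, ?_⟩
  simp only [map_sub, map_add, map_neg, DD_mul, DD_px, map_zero, map_one, zero_mul, add_zero,
    zero_sub, one_mul, map_mul, map_ofNat, D2, D4] at hρ2 d1 d3 ⊢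
  linear_combination 4 * hρ2 - 4 * d3 + d1

theorem rel_E2 : IsPoly (px (9 * q) * DD (MS Ω (sf b)) - px (2 * p ^ 2) * DD (MS Ω (fun _ => 1)) +
    px (p * derivative p) * MS Ω (fun _ => 1) - px (6 * derivative q) * MS Ω (sf b)) := by
  -- a
  have ra := R1 (WD.Pt (b := b) (p := p) (q := q)) ho hb hn h0
  have la := MS_lin (b := b) hb p 0 3 0 0
  have ea : (fun z => p.eval z * 1 + (0 : ℂ[X]).eval z * sf b z + (3 : ℂ[X]).eval z * sf b z ^ 2 +
      (0 : ℂ[X]).eval z * sf b z ^ 3 + (0 : ℂ[X]).eval z * sf b z ^ 4) =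
      fun z => 3 * sf b z ^ 2 + p.eval z := by
    funext z
    simp only [eval_ofNat, eval_zero]
    ring
  rw [ea, ra] at la
  -- c
  have rc := R1 (WD.Pt.mul (WD.sf.pow 2) : WD b (fun z => Pt b p q z * sf b z ^ 2) _ _) ho hb hn
    (fun x hx => by simp only [h0 x hx, zero_mul])
  have lc := MS_lin (b := b) hb 0 (2 * q) (3 * p) 0 5
  have ec : (fun z => (0 : ℂ[X]).eval z * 1 + (2 * q).eval z * sf b z +
      (3 * p).eval z * sf b z ^ 2 +
      (0 : ℂ[X]).eval z * sf b z ^ 3 + (5 : ℂ[X]).eval z * sf b z ^ 4) =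
      fun z => Pt b p q z * (((2 : ℕ) : ℂ) * sf b z ^ (2 - 1) * 1) +
        (3 * sf b z ^ 2 + p.eval z) * sf b z ^ 2 := by
    funext z
    simp only [Pt, eval_mul, eval_ofNat, eval_zero]
    push_cast
    ring
  rw [ec, rc] at lc
  -- e
  have re := R2 (WD.Pt.mul WD.sf : WD b (fun z => Pt b p q z * sf b z) _ _) ho hb hn
    (fun x hx => by simp only [h0 x hx, zero_mul])
  have le := MS_lin (b := b) hb 0 (derivative q) (derivative p) 0 0
  have ee : (fun z => (0 : ℂ[X]).eval z * 1 + (derivative q).eval z * sf b z +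
      (derivative p).eval z * sf b z ^ 2 +
      (0 : ℂ[X]).eval z * sf b z ^ 3 + (0 : ℂ[X]).eval z * sf b z ^ 4) =
      fun z => Pt b p q z * 0 +
        ((derivative p).eval z * sf b z + (derivative q).eval z) * sf b z := by
    funext z
    simp only [Pt, eval_zero]
    ring
  rw [ee, re] at le
  have lf := MS_lin (b := b) hb 0 q p 0 1
  have ef : (fun z => (0 : ℂ[X]).eval z * 1 + q.eval z * sf b z +
      p.eval z * sf b z ^ 2 +
      (0 : ℂ[X]).eval z * sf b z ^ 3 + (1 : ℂ[X]).eval z * sf b z ^ 4) =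
      fun z => Pt b p q z * sf b z := by
    funext z
    simp only [Pt, eval_zero, eval_one]
    ring
  rw [ef] at lf
  obtain ⟨ρa, hρa⟩ := la
  obtain ⟨ρc, hρc⟩ := lc
  obtain ⟨ρe, hρe⟩ := le
  obtain ⟨ρf, hρf⟩ := lf
  generalize MS Ω (fun _ => (1 : ℂ)) = M0 at *
  generalize MS Ω (sf b) = M1 at *
  generalize MS Ω (fun z => sf b z ^ 2) = M2 at *
  generalize MS Ω (fun z => sf b z ^ 3) = M3 at *
  generalize MS Ω (fun z => sf b z ^ 4) = M4 at *
  generalize MS Ω (fun z => Pt b p q z * sf b z) = MP at *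
  have da := congrArg DD hρa
  have dc := congrArg DD hρc
  have df := congrArg DD hρf
  have D2 : DD (2 : LS) = 0 := DD_ofNat 2
  have D3 : DD (3 : LS) = 0 := DD_ofNat 3
  have D5 : DD (5 : LS) = 0 := DD_ofNat 5
  refine ⟨15 * ρe - 15 * derivative ρf + 3 * derivative ρc - 5 * derivative p * ρa +
    2 * derivative (p * ρa), ?_⟩
  simp only [map_sub, map_add, map_neg, DD_mul, DD_px, map_zero, map_one, zero_mul, add_zero,
    zero_sub, one_mul, map_mul, map_ofNat, D2, D3, D5, map_pow, derivative_mul,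
    zero_add] at hρa hρe da dc df ⊢
  linear_combination 15 * hρe - 15 * df + 3 * dc + 2 * px p * da - 3 * px (derivative p) * hρa

end relations

end Pool.Agent.H62c
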