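import Mathlib
import Pool.Agent.H62c.Defs
import Pool.Agent.H62c.Moments

set_option autoImplicit false

namespace Pool.Agent.H62c

open Polynomial ComplexConjugate

section generic

variable {S S' : Type*} [CommRing S] [CommRing S'] (κ : ℂ →+* S) (c : Fin 10 → S)

/-- leading coefficient in `w` -/
noncomputable def gl : S :=
  κ (1 / 8) * c 6 + κ (Complex.I / 8) * c 7 + κ (-(1 / 8)) * c 8 + κ (-(Complex.I / 8)) * c 9

/-- coefficient of `w^2` -/
noncomputable def gb : S[X] :=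
  C (κ (1 / 4) * c 3 + κ (Complex.I / 4) * c 4 + κ (-(1 / 4)) * c 5) +
  C (κ (3 / 8) * c 6 + κ (Complex.I / 8) * c 7 + κ (1 / 8) * c 8 + κ (3 * Complex.I / 8) * c 9) * X

/-- coefficient of `w` -/
noncomputable def gc : S[X] :=
  C (κ (1 / 2) * c 1 + κ (Complex.I / 2) * c 2) + C (κ (1 / 2) * c 3 + κ (1 / 2) * c 5) * X +
  C (κ (3 / 8) * c 6 + κ (-(Complex.I / 8)) * c 7 + κ (1 / 8) * c 8 +
    κ (-(3 * Complex.I / 8)) * c 9) * X ^ 2

/-- constant coefficient -/
noncomputable def gd : S[X] :=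
  C (c 0) + C (κ (1 / 2) * c 1 + κ (-(Complex.I / 2)) * c 2) * X +
  C (κ (1 / 4) * c 3 + κ (-(Complex.I / 4)) * c 4 + κ (-(1 / 4)) * c 5) * X ^ 2 +
  C (κ (1 / 8) * c 6 + κ (-(Complex.I / 8)) * c 7 + κ (-(1 / 8)) * c 8 +
    κ (Complex.I / 8) * c 9) * X ^ 3

/-- discriminant -/
noncomputable def gD : S[X] :=
  gb κ c ^ 2 * gc κ c ^ 2 - 4 * C (gl κ c) * gc κ c ^ 3 - 4 * gb κ c ^ 3 * gd κ c -
    27 * C (gl κ c) ^ 2 * gd κ c ^ 2 + 18 * C (gl κ c) * gb κ c * gc κ c * gd κ c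

variable (φ : S →+* S')

theorem map_gl : φ (gl κ c) = gl (φ.comp κ) (φ ∘ c) := by
  simp only [gl, map_add, map_mul, RingHom.comp_apply, Function.comp_apply]

theorem map_gb : (gb κ c).map φ = gb (φ.comp κ) (φ ∘ c) := by
  simp only [gb, Polynomial.map_add, Polynomial.map_mul, Polynomial.map_C, Polynomial.map_X,
    map_add φ, map_mul φ, RingHom.comp_apply, Function.comp_apply]

theorem map_gc : (gc κ c).map φ = gc (φ.comp κ) (φ ∘ c) := by
  simp only [gc, Polynomial.map_add, Polynomial.map_mul, Polynomial.map_C, Polynomial.map_X,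
    Polynomial.map_pow, map_add φ, map_mul φ, RingHom.comp_apply, Function.comp_apply]

theorem map_gd : (gd κ c).map φ = gd (φ.comp κ) (φ ∘ c) := by
  simp only [gd, Polynomial.map_add, Polynomial.map_mul, Polynomial.map_C, Polynomial.map_X,
    Polynomial.map_pow, map_add φ, map_mul φ, RingHom.comp_apply, Function.comp_apply]

theorem map_gD : (gD κ c).map φ = gD (φ.comp κ) (φ ∘ c) := by
  simp only [gD, Polynomial.map_add, Polynomial.map_sub, Polynomial.map_mul, Polynomial.map_pow,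
    map_gb, map_gc, map_gd, Polynomial.map_C, map_gl κ c φ, Polynomial.map_ofNat]

theorem gb_deg : (gb κ c).natDegree ≤ 1 := by
  unfold gb
  compute_degree

theorem gc_deg : (gc κ c).natDegree ≤ 2 := by
  unfold gc
  compute_degree

theorem gd_deg : (gd κ c).natDegree ≤ 3 := by
  unfold gd
  compute_degree

/-- the generic exceptional polynomial, complex form -/
noncomputable def gE : S :=
  gl κ c * c 9 * (gD κ c).coeff 6 * resultant (gD κ c) (derivative (gD κ c)) 6 5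

theorem map_gE : φ (gE κ c) = gE (φ.comp κ) (φ ∘ c) := by
  have h1 : φ (resultant (gD κ c) (derivative (gD κ c)) 6 5) =
      resultant ((gD κ c).map φ) ((derivative (gD κ c)).map φ) 6 5 := (resultant_map_map _ _ _ _ φ).symm
  rw [← derivative_map, map_gD] at h1
  have h2 : φ ((gD κ c).coeff 6) = (gD (φ.comp κ) (φ ∘ c)).coeff 6 := by
    rw [← Polynomial.coeff_map, map_gD]
  rw [gE, map_mul, map_mul, map_mul, h1, h2, map_gl κ c φ, gE]
  rfl

end generic

/-- The complexified coefficients. -/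
noncomputable def cc (c : Fin 10 → ℝ) : Fin 10 → ℂ := fun i => (c i : ℂ)

/-- shift polynomial -/
noncomputable def bb (c : Fin 10 → ℂ) : ℂ[X] :=
  C (1 / 3) * (C (gl (RingHom.id ℂ) c)⁻¹ * gb (RingHom.id ℂ) c)

/-- normalised `p` -/
noncomputable def pp (c : Fin 10 → ℂ) : ℂ[X] :=
  C (gl (RingHom.id ℂ) c)⁻¹ * gc (RingHom.id ℂ) c -
    C (1 / 3) * (C (gl (RingHom.id ℂ) c)⁻¹ * gb (RingHom.id ℂ) c) ^ 2

/-- normalised `q` -/
noncomputable def qq (c : Fin 10 → ℂ) : ℂ[X] :=
  C (2 / 27) * (C (gl (RingHom.id ℂ) c)⁻¹ * gb (RingHom.id ℂ) c) ^ 3 -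
    C (1 / 3) * (C (gl (RingHom.id ℂ) c)⁻¹ * gb (RingHom.id ℂ) c) *
      (C (gl (RingHom.id ℂ) c)⁻¹ * gc (RingHom.id ℂ) c) +
    C (gl (RingHom.id ℂ) c)⁻¹ * gd (RingHom.id ℂ) c

theorem cubic_eq (c : Fin 10 → ℝ) (h : gl (RingHom.id ℂ) (cc c) ≠ 0) (z : ℂ) :
    (cubic c z : ℂ) = gl (RingHom.id ℂ) (cc c) * Pt (bb (cc c)) (pp (cc c)) (qq (cc c)) z := by
  have h1 : (cubic c z : ℂ) = gl (RingHom.id ℂ) (cc c) * conj z ^ 3 +
      (gb (RingHom.id ℂ) (cc c)).eval z * conj z ^ 2 +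
      (gc (RingHom.id ℂ) (cc c)).eval z * conj z + (gd (RingHom.id ℂ) (cc c)).eval z := by
    have hx : (z.re : ℂ) = (z + conj z) / 2 := by
      rw [Complex.add_conj]; push_cast; ring
    have hy : (z.im : ℂ) = (z - conj z) / (2 * Complex.I) := by
      rw [Complex.sub_conj]; push_cast; field_simp
    unfold cubic
    push_cast
    rw [hx, hy]
    simp only [gl, gb, gc, gd, cc, RingHom.id_apply, eval_add, eval_mul, eval_C, eval_X, eval_pow]
    have hI : Complex.I ≠ 0 := Complex.I_ne_zero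
    have hI2 : Complex.I ^ 2 = -1 := Complex.I_sq
    have e1 : (z - conj z) / (2 * Complex.I) = -Complex.I * (z - conj z) / 2 := by
      field_simp
      linear_combination (z - conj z) * hI2
    rw [e1]
    generalize conj z = w
    have hI3 : Complex.I ^ 3 = -Complex.I := by
      rw [pow_succ, hI2]; ring
    ring_nf
    rw [hI2, hI3]
    ring
  rw [h1]
  unfold Pt sf bb pp qq
  simp only [eval_add, eval_mul, eval_sub, eval_pow, eval_C]
  field_simp
  ring

theorem Del_eq (c : Fin 10 → ℂ) (h : gl (RingHom.id ℂ) c ≠ 0) :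
    C (gl (RingHom.id ℂ) c ^ 4) * Del (pp c) (qq c) = gD (RingHom.id ℂ) c := by
  apply Polynomial.funext
  intro z
  unfold Del pp qq gD
  simp only [eval_add, eval_mul, eval_sub, eval_pow, eval_C, eval_neg, eval_ofNat]
  field_simp
  ring

end Pool.Agent.H62c
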