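import Mathlib
import Pool.Agent.H62c.Defs
import Pool.Agent.H62c.Stokes

set_option autoImplicit false

namespace Pool.Agent.H62c

open MeasureTheory Set

variable {c : Fin 10 → ℝ} {Ω Γ : Set ℂ}

theorem cubic_continuous (c : Fin 10 → ℝ) : Continuous (cubic c) := by
  unfold cubic
  have h1 := Complex.continuous_re
  have h2 := Complex.continuous_im
  fun_prop

theorem null_zeroSet (hc : c 9 ≠ 0) : volume (zeroSet c) = 0 := by
  set S : Set (ℝ × ℝ) := {p | cubic c ⟨p.1, p.2⟩ = 0} with hS
  have hcont : Continuous fun p : ℝ × ℝ => cubic c ⟨p.1, p.2⟩ := by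
    unfold cubic
    fun_prop
  have hSm : MeasurableSet S := (isClosed_singleton.preimage hcont).measurableSet
  have h1 : zeroSet c = Complex.measurableEquivRealProd ⁻¹' S := by
    ext z
    simp only [zeroSet, hS, mem_ofPred_eq, mem_preimage, Complex.measurableEquivRealProd_apply,
      Complex.eta]
  rw [h1, Complex.volume_preserving_equiv_real_prod.measure_preimage hSm.nullMeasurableSet,
    Measure.volume_eq_prod, Measure.measure_prod_null hSm]
  filter_upwards with x
  set P : Polynomial ℝ := Polynomial.C (c 9) * Polynomial.X ^ 3 +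
    Polynomial.C (c 5 + c 8 * x) * Polynomial.X ^ 2 +
    Polynomial.C (c 2 + c 4 * x + c 7 * x ^ 2) * Polynomial.X +
    Polynomial.C (c 0 + c 1 * x + c 3 * x ^ 2 + c 6 * x ^ 3) with hP
  have hP0 : P ≠ 0 := by
    intro h
    have := congrArg (fun Q : Polynomial ℝ => Q.coeff 3) h
    simp only [hP, Polynomial.coeff_add, Polynomial.coeff_C_mul, Polynomial.coeff_X_pow,
      Polynomial.coeff_X, Polynomial.coeff_C, Polynomial.coeff_zero] at this
    norm_num at this
    exact hc this
  have hfin : (Prod.mk x ⁻¹' S).Finite := by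
    refine (Polynomial.finite_setOfPred_isRoot hP0).subset ?_
    intro y hy
    have hy' : cubic c ⟨x, y⟩ = 0 := hy
    show P.eval y = 0
    rw [← hy', hP, cubic]
    simp only [Polynomial.eval_add, Polynomial.eval_mul, Polynomial.eval_C, Polynomial.eval_pow,
      Polynomial.eval_X]
    ring
  exact hfin.measure_zero volume

theorem frontier_component (hΓ : IsClosed Γ) {z : ℂ} (_hz : z ∉ Γ) :
    frontier (connectedComponentIn Γᶜ z) ⊆ Γ := by
  intro y hy
  by_contra hyΓ
  have ho : IsOpen (connectedComponentIn Γᶜ z) := hΓ.isOpen_compl.connectedComponentIn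
  rw [ho.frontier_eq] at hy
  have hne : (connectedComponentIn Γᶜ z).Nonempty := by
    by_contra h
    rw [not_nonempty_iff_eq_empty] at h
    rw [h, closure_empty] at hy
    exact hy.1
  have hpre : IsPreconnected (insert y (connectedComponentIn Γᶜ z)) :=
    isPreconnected_connectedComponentIn.subset_closure (subset_insert _ _)
      (insert_subset hy.1 subset_closure)
  obtain ⟨w, hw⟩ := hne
  have h1 : insert y (connectedComponentIn Γᶜ z) ⊆ connectedComponentIn Γᶜ w :=
    hpre.subset_connectedComponentIn (mem_insert_of_mem _ hw)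
      (insert_subset hyΓ (connectedComponentIn_subset _ _))
  have h2 := connectedComponentIn_eq hw
  rw [← h2] at h1
  exact hy.2 (h1 (mem_insert _ _))

theorem const_sign (hpre : IsPreconnected Ω) (h0 : ∀ z ∈ Ω, cubic c z ≠ 0) :
    (∀ z ∈ Ω, 0 < cubic c z) ∨ (∀ z ∈ Ω, cubic c z < 0) := by
  by_contra h
  push Not at h
  obtain ⟨⟨z, hz, hz'⟩, ⟨w, hw, hw'⟩⟩ := h
  have := hpre.intermediate_value hz hw (cubic_continuous c).continuousOn
  obtain ⟨y, hy, hy0⟩ := this ⟨hz', hw'⟩
  exact h0 y hy hy0

end Pool.Agent.H62c
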