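import Mathlib
import Pool.Agent.H62c.Core

set_option autoImplicit false
set_option synthInstance.maxHeartbeats 400000
set_option maxHeartbeats 1000000

namespace Pool.Agent.H62c

open Polynomial

variable {p q : ℂ[X]}

theorem small_quot {h w : LS} {Δ : ℂ[X]} (dΔ : Δ.natDegree ≤ 6) (hdeg : Δ.coeff 6 ≠ 0)
    (hw : px Δ * w = h) (hh : ∀ n : ℤ, n < -4 → h.coeff n = 0) : ∀ n : ℤ, n < 2 → w.coeff n = 0 := by
  obtain ⟨N, hN⟩ : ∃ N : ℤ, ∀ n < N, w.coeff n = 0 :=
    ⟨w.order, fun n hn => HahnSeries.coeff_eq_zero_of_lt_order hn⟩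
  have key : ∀ k : ℕ, ∀ n : ℤ, n < N + k → n < 2 → w.coeff n = 0 := by
    intro k
    induction k with
    | zero => intro n hn _; exact hN n (by simpa using hn)
    | succ k ih =>
      intro n hn hn1
      by_cases hlt : n < N + k
      · exact ih n hlt hn1
      · have IH : ∀ m, m < n → w.coeff m = 0 := fun m hm => ih m (by push_cast at hn; omega) (by omega)
        have c1 : (px Δ * w).coeff (n - 6) = h.coeff (n - 6) := by rw [hw]
        rw [coeff_px_mul (N := 7) (by omega), hh (n - 6) (by omega)] at c1
        simp only [Finset.sum_range_succ, Finset.sum_range_zero] at c1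
        rw [IH (n - 6 + ((0 : ℕ) : ℤ)) (by omega), IH (n - 6 + ((1 : ℕ) : ℤ)) (by omega),
          IH (n - 6 + ((2 : ℕ) : ℤ)) (by omega), IH (n - 6 + ((3 : ℕ) : ℤ)) (by omega),
          IH (n - 6 + ((4 : ℕ) : ℤ)) (by omega), IH (n - 6 + ((5 : ℕ) : ℤ)) (by omega),
          show n - 6 + ((6 : ℕ) : ℤ) = n by push_cast; ring] at c1
        simpa [hdeg] using c1
  intro n hn
  exact key (n - N + 1).toNat n (by omega) hn

/-- The residue identity for homogeneous solutions. -/
theorem homog_res {f g : LS} {α β : ℂ[X]} (hp : p.natDegree ≤ 2) (hq : q.natDegree ≤ 3)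
    (hdeg : (Del p q).coeff 6 ≠ 0) (hBez : α * Del p q + β * derivative (Del p q) = 1)
    (h₁ : px (Del p q) * DD f = px (C (1 / 6) * derivative (Del p q)) * f + px (-6 * Jac p q) * g)
    (h₂ : px (Del p q) * DD g = px (C (1 / 3) * derivative (Del p q)) * g + px (p * Jac p q) * f) :
    (px (9 * α * q - 27 * derivative β * q - 18 * β * derivative q) * f +
      px (18 * derivative β * p - 12 * α * p) * g).coeff 1 = 0 := by
  have hg := growth hp hq hdeg h₁ h₂
  have dΔ := Del_natDegree hp hq
  have hΔ0 : px (Del p q) ≠ 0 := by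
    intro h
    have : Del p q = 0 := px_injective (by rw [h, map_zero])
    exact hdeg (by rw [this, coeff_zero])
  set h : LS := px (9 * q) * f - px (12 * p) * g with hh
  have hlow : ∀ n : ℤ, n < -4 → h.coeff n = 0 := by
    intro n hn
    have dq : (9 * q).natDegree < 4 := by
      rw [numC]
      exact lt_of_le_of_lt (natDegree_C_mul_le _ _) (by omega)
    have dp : (12 * p).natDegree < 3 := by
      rw [numC]
      exact lt_of_le_of_lt (natDegree_C_mul_le _ _) (by omega)
    rw [hh, HahnSeries.coeff_sub, coeff_px_mul dq, coeff_px_mul dp]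
    have hgf : ∀ m : ℤ, m < -1 → f.coeff m = 0 := fun m hm => (hg m hm).1
    have hgg : ∀ m : ℤ, m < -2 → g.coeff m = 0 := by
      intro m hm
      have := (hg (m + 1) (by omega)).2
      rwa [add_sub_cancel_right] at this
    rw [Finset.sum_eq_zero, Finset.sum_eq_zero, sub_zero]
    · intro i hi
      rw [Finset.mem_range] at hi
      rw [hgg _ (by omega), mul_zero]
    · intro i hi
      rw [Finset.mem_range] at hi
      rw [hgf _ (by omega), mul_zero]
  set w : LS := h / px (Del p q) with hw
  have hw' : px (Del p q) * w = h := by rw [hw, mul_div_cancel₀ _ hΔ0]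
  have hw1 : w.coeff 1 = 0 := small_quot dΔ hdeg hw' hlow 1 (by norm_num)
  set G : LS := px β * (px (18 * p) * g - px (27 * q) * f) with hG
  have hmain : px (9 * α * q - 27 * derivative β * q - 18 * β * derivative q) * f +
      px (18 * derivative β * p - 12 * α * p) * g = DD G + w := by
    apply mul_left_cancel₀ hΔ0
    have hB : px α * px (Del p q) + px β * px (derivative (Del p q)) = 1 := by
      rw [← map_mul, ← map_mul, ← map_add, hBez, map_one]
    have e1 : derivative (18 * p) = 18 * derivative p := by
      rw [numC, derivative_C_mul]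
    have e2 : derivative (27 * q) = 27 * derivative q := by
      rw [numC, derivative_C_mul]
    have hDG : DD G = px β * (px (18 * p) * DD g + px (18 * derivative p) * g -
        (px (27 * q) * DD f + px (27 * derivative q) * f)) +
        px (derivative β) * (px (18 * p) * g - px (27 * q) * f) := by
      rw [hG, DD_mul, map_sub, DD_mul, DD_mul, DD_px, DD_px, DD_px, e1, e2]
    have c6 : px (C (1 / 6) : ℂ[X]) * 6 = 1 := by
      have : (6 : LS) = px (C 6) := by rw [← numC, map_ofNat]
      rw [this, ← map_mul, ← C_mul]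
      norm_num
    have c3 : px (C (1 / 3) : ℂ[X]) * 3 = 1 := by
      have : (3 : LS) = px (C 3) := by rw [← numC, map_ofNat]
      rw [this, ← map_mul, ← C_mul]
      norm_num
    rw [mul_add (px (Del p q)) (DD G) w, hw', hDG, hh]
    have hD' : px (derivative (Del p q)) =
        -12 * px p ^ 2 * px (derivative p) - 54 * px q * px (derivative q) := by
      rw [Del_deriv]
      simp only [map_sub, map_mul, map_pow, map_neg, map_ofNat]
    have hD : px (Del p q) = -4 * px p ^ 3 - 27 * px q ^ 2 := by
      rw [Del]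
      simp only [map_sub, map_mul, map_pow, map_neg, map_ofNat]
    have hJ : px (Jac p q) = 3 * px (derivative p) * px q - 2 * px p * px (derivative q) := by
      rw [Jac]
      simp only [map_sub, map_mul, map_ofNat]
    simp only [map_sub, map_mul, map_neg, map_ofNat] at h₁ h₂ ⊢
    have h₁' : px (Del p q) * DD f * 6 = px (derivative (Del p q)) * f - 36 * px (Jac p q) * g := by
      linear_combination 6 * h₁ + px (derivative (Del p q)) * f * c6
    have h₂' : px (Del p q) * DD g * 3 = px (derivative (Del p q)) * g + 3 * px p * px (Jac p q) * f := by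
      linear_combination 3 * h₂ + px (derivative (Del p q)) * g * c3
    rw [hD', hJ] at h₁' h₂'
    rw [hD'] at hB
    rw [hD] at h₁' h₂' hB ⊢
    have := charZero_LS
    linear_combination (9 * px q * f - 12 * px p * g) * hB - 6 * px β * px p * h₂' +
      (9 / 2) * px β * px q * h₁'
  rw [hmain, HahnSeries.coeff_add, res_DD, hw1, add_zero]

/-- The algebraic core: an algebraic solution has vanishing invariant. -/
theorem core {f g : LS} {α β : ℂ[X]} (hp : p.natDegree ≤ 2) (hq : q.natDegree ≤ 3)
    (hdeg : (Del p q).coeff 6 ≠ 0) (hBez : α * Del p q + β * derivative (Del p q) = 1)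
    (E1 : IsPoly (px (2 * p) * DD g + px (3 * q) * DD f - px (2 * derivative p) * g -
      px (derivative q) * f))
    (E2 : IsPoly (px (9 * q) * DD g - px (2 * p ^ 2) * DD f + px (p * derivative p) * f -
      px (6 * derivative q) * g))
    (halg : IsIntegral KK f) :
    (px (9 * α * q - 27 * derivative β * q - 18 * β * derivative q) * f +
      px (18 * derivative β * p - 12 * α * p) * g).coeff 1 = 0 := by
  have hcop : IsCoprime (Del p q) (derivative (Del p q)) := ⟨α, β, hBez⟩
  have hJ0 : px (Jac p q) ≠ 0 := by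
    intro h
    exact Jac_ne_zero hdeg hcop (px_injective (by rw [h, map_zero]))
  have hchar := charZero_LS
  have c6 : px (C (1 / 6) : ℂ[X]) = 1 / 6 := by
    have h6 : (6 : LS) = px (C 6) := by rw [← numC, map_ofNat]
    rw [eq_div_iff (by norm_num), h6, ← map_mul, ← C_mul]
    norm_num
  have c3 : px (C (1 / 3) : ℂ[X]) = 1 / 3 := by
    have h3 : (3 : LS) = px (C 3) := by rw [← numC, map_ofNat]
    rw [eq_div_iff (by norm_num), h3, ← map_mul, ← C_mul]
    norm_num
  have hD' : px (derivative (Del p q)) =
      -12 * px p ^ 2 * px (derivative p) - 54 * px q * px (derivative q) := by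
    rw [Del_deriv]
    simp only [map_sub, map_mul, map_pow, map_neg, map_ofNat]
  have hD : px (Del p q) = -4 * px p ^ 3 - 27 * px q ^ 2 := by
    rw [Del]
    simp only [map_sub, map_mul, map_pow, map_neg, map_ofNat]
  have hJ : px (Jac p q) = 3 * px (derivative p) * px q - 2 * px p * px (derivative q) := by
    rw [Jac]
    simp only [map_sub, map_mul, map_ofNat]
  obtain ⟨ρ₁, hρ₁⟩ := E1
  obtain ⟨ρ₂, hρ₂⟩ := E2
  set σ₁ : ℂ[X] := -(9 * q * ρ₁ - 2 * p * ρ₂) with hσ₁
  set σ₂ : ℂ[X] := -(2 * p ^ 2 * ρ₁ + 3 * q * ρ₂) with hσ₂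
  have O1 : px (Del p q) * DD f = px (C (1 / 6) * derivative (Del p q)) * f +
      px (-6 * Jac p q) * g + px σ₁ := by
    rw [hσ₁]
    simp only [map_mul, map_neg, map_sub, map_ofNat, map_pow] at hρ₁ hρ₂ ⊢
    rw [c6, hD, hD', hJ]
    linear_combination -9 * px q * hρ₁ + 2 * px p * hρ₂
  have O2 : px (Del p q) * DD g = px (C (1 / 3) * derivative (Del p q)) * g +
      px (p * Jac p q) * f + px σ₂ := by
    rw [hσ₂]
    simp only [map_mul, map_neg, map_add, map_ofNat, map_pow] at hρ₁ hρ₂ ⊢
    rw [c3, hD, hD', hJ]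
    linear_combination -2 * px p ^ 2 * hρ₁ - 3 * px q * hρ₂
  have hfE : f ∈ IntermediateField.adjoin KK {f} := IntermediateField.mem_adjoin_simple_self KK f
  have hpE : ∀ P : ℂ[X], px P ∈ IntermediateField.adjoin KK {f} := fun P =>
    (IntermediateField.adjoin KK {f}).algebraMap_mem (pk P)
  have hgE : g ∈ IntermediateField.adjoin KK {f} := by
    have h6 : px (6 * Jac p q) ≠ 0 := by
      rw [map_mul, map_ofNat]
      exact mul_ne_zero (by norm_num) hJ0
    have : g = (px (C (1 / 6) * derivative (Del p q)) * f + px σ₁ - px (Del p q) * DD f) /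
        px (6 * Jac p q) := by
      rw [eq_div_iff h6]
      simp only [map_mul, map_neg, map_ofNat] at O1 ⊢
      linear_combination O1
    rw [this]
    exact div_mem (sub_mem (add_mem (mul_mem (hpE _) hfE) (hpE _))
      (mul_mem (hpE _) (DD_mem_adjoin halg))) (hpE _)
  obtain ⟨y₁, y₂, hK, hy⟩ := exists_rational halg hgE
  have Y1 : px (Del p q) * DD y₁ = px (C (1 / 6) * derivative (Del p q)) * y₁ +
      px (-6 * Jac p q) * y₂ + px σ₁ := by
    have h1 := hy (Del p q) 0 (-(C (1 / 6) * derivative (Del p q))) (-(-6 * Jac p q)) σ₁ (by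
      rw [map_neg, map_neg, map_zero]
      linear_combination O1)
    rw [map_neg, map_neg, map_zero] at h1
    linear_combination h1
  have Y2 : px (Del p q) * DD y₂ = px (C (1 / 3) * derivative (Del p q)) * y₂ +
      px (p * Jac p q) * y₁ + px σ₂ := by
    have h1 := hy 0 (Del p q) (-(p * Jac p q)) (-(C (1 / 3) * derivative (Del p q))) σ₂ (by
      rw [map_neg, map_neg, map_zero]
      linear_combination O2)
    rw [map_neg, map_neg, map_zero] at h1
    linear_combination h1
  have hid : ∀ c : ℂ, (Del p q).eval c = 0 →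
      ((derivative (Del p q)).eval c) ^ 2 + 108 * p.eval c * ((Jac p q).eval c) ^ 2 = 0 := by
    intro c hc
    have := congrArg (eval c) (Del_identity p q)
    simp only [eval_add, eval_mul, eval_pow, eval_neg, eval_ofNat, hc] at this
    rw [this]
    ring
  obtain ⟨hP1, hP2⟩ := isPoly_of_ode hcop hid Y1 Y2 hK
  have H1 : px (Del p q) * DD (f - y₁) = px (C (1 / 6) * derivative (Del p q)) * (f - y₁) +
      px (-6 * Jac p q) * (g - y₂) := by
    rw [map_sub]
    linear_combination O1 - Y1
  have H2 : px (Del p q) * DD (g - y₂) = px (C (1 / 3) * derivative (Del p q)) * (g - y₂) +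
      px (p * Jac p q) * (f - y₁) := by
    rw [map_sub]
    linear_combination O2 - Y2
  have hres := homog_res hp hq hdeg hBez H1 H2
  have hpol := ((hP1.mul (9 * α * q - 27 * derivative β * q - 18 * β * derivative q)).add
    (hP2.mul (18 * derivative β * p - 12 * α * p))).res
  have hsplit : px (9 * α * q - 27 * derivative β * q - 18 * β * derivative q) * f +
      px (18 * derivative β * p - 12 * α * p) * g =
      (px (9 * α * q - 27 * derivative β * q - 18 * β * derivative q) * (f - y₁) +
      px (18 * derivative β * p - 12 * α * p) * (g - y₂)) +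
      (px (9 * α * q - 27 * derivative β * q - 18 * β * derivative q) * y₁ +
      px (18 * derivative β * p - 12 * α * p) * y₂) := by ring
  rw [hsplit, HahnSeries.coeff_add, hres, hpol, add_zero]

end Pool.Agent.H62c
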