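import Mathlib
import Pool.Agent.H62c.Defs
import Pool.Agent.H62c.Moments

set_option autoImplicit false

namespace Pool.Agent.H62c

open MeasureTheory Set Polynomial ComplexConjugate

variable {c : Fin 10 → ℝ} {Ω : Set ℂ}

theorem cubic_line (c : Fin 10 → ℝ) (z v : ℂ) : ∃ A2 A3 : ℝ, ∀ t : ℝ,
    cubic c (z + t * v) = cubic c z +
      t * ((c 1 + 2 * c 3 * z.re + c 4 * z.im + 3 * c 6 * z.re ^ 2 + 2 * c 7 * z.re * z.im +
        c 8 * z.im ^ 2) * v.re +
      (c 2 + c 4 * z.re + 2 * c 5 * z.im + c 7 * z.re ^ 2 + 2 * c 8 * z.re * z.im +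
        3 * c 9 * z.im ^ 2) * v.im) + t ^ 2 * A2 + t ^ 3 * A3 := by
  refine ⟨c 3 * v.re ^ 2 + c 4 * v.re * v.im + c 5 * v.im ^ 2 + 3 * c 6 * z.re * v.re ^ 2 +
    c 7 * (2 * z.re * v.re * v.im + z.im * v.re ^ 2) +
    c 8 * (2 * z.im * v.re * v.im + z.re * v.im ^ 2) + 3 * c 9 * z.im * v.im ^ 2,
    c 6 * v.re ^ 3 + c 7 * v.re ^ 2 * v.im + c 8 * v.re * v.im ^ 2 + c 9 * v.im ^ 3, ?_⟩
  intro t
  have h1 : (z + t * v).re = z.re + t * v.re := by simp
  have h2 : (z + t * v).im = z.im + t * v.im := by simp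
  unfold cubic
  rw [h1, h2]
  ring

theorem exists_dir (A B : ℝ) : ∃ v : ℂ, v ≠ 0 ∧ A * v.re + B * v.im = 0 := by
  by_cases h : A = 0 ∧ B = 0
  · exact ⟨1, one_ne_zero, by rw [h.1, h.2]; ring⟩
  · refine ⟨⟨B, -A⟩, ?_, ?_⟩
    · intro h0
      apply h
      rw [Complex.ext_iff] at h0
      simp only [Complex.zero_re, Complex.zero_im, neg_eq_zero] at h0
      exact ⟨h0.2, h0.1⟩
    · simp only
      ring

theorem exists_exit (ho : IsOpen Ω) (hb : Bornology.IsBounded Ω) {z v : ℂ} (hz : z ∈ Ω)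
    (hv : v ≠ 0) : ∃ t : ℝ, 0 < t ∧ z + t * v ∈ frontier Ω := by
  obtain ⟨r, hr⟩ := hb.subset_closedBall (0 : ℂ)
  have hv' := norm_pos_iff.2 hv
  have hr0 : 0 ≤ r := by
    have := mem_closedBall_zero_iff.1 (hr hz)
    exact (norm_nonneg z).trans this
  set T : ℝ := (2 * r + 1) / ‖v‖ with hT
  have hTpos : 0 < T := by positivity
  have hout : z + T * v ∉ Ω := by
    intro h
    have h1 := mem_closedBall_zero_iff.1 (hr h)
    have h2 := mem_closedBall_zero_iff.1 (hr hz)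
    have h3 : ‖(T : ℂ) * v‖ = 2 * r + 1 := by
      rw [norm_mul, Complex.norm_real, Real.norm_eq_abs, abs_of_pos hTpos, hT]
      field_simp
    have h4 : ‖(T : ℂ) * v‖ ≤ ‖z + T * v‖ + ‖z‖ := by
      calc ‖(T : ℂ) * v‖ = ‖(z + T * v) - z‖ := by rw [add_sub_cancel_left]
        _ ≤ _ := norm_sub_le _ _
    linarith
  obtain ⟨y, hy, hyf⟩ := exists_frontier ho (convex_segment z (z + T * v)).isPreconnected
    (left_mem_segment ℝ _ _) (right_mem_segment ℝ _ _) hz hout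
  rw [segment_eq_image'] at hy
  obtain ⟨θ, hθ, rfl⟩ := hy
  have hne : θ ≠ 0 := by
    rintro rfl
    rw [ho.frontier_eq] at hyf
    apply hyf.2
    simpa using hz
  refine ⟨θ * T, mul_pos (lt_of_le_of_ne hθ.1 hne.symm) hTpos, ?_⟩
  convert hyf using 1
  simp
  ring

/-- A zero inside forces vanishing on a line. -/
theorem exists_line (ho : IsOpen Ω) (hb : Bornology.IsBounded Ω)
    (hfr : ∀ z ∈ frontier Ω, cubic c z = 0) {z : ℂ} (hz : z ∈ Ω) (h0 : cubic c z = 0) :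
    ∃ v : ℂ, v ≠ 0 ∧ ∀ t : ℝ, cubic c (z + t * v) = 0 := by
  obtain ⟨v, hv, hA1⟩ := exists_dir
    (c 1 + 2 * c 3 * z.re + c 4 * z.im + 3 * c 6 * z.re ^ 2 + 2 * c 7 * z.re * z.im +
        c 8 * z.im ^ 2)
    (c 2 + c 4 * z.re + 2 * c 5 * z.im + c 7 * z.re ^ 2 + 2 * c 8 * z.re * z.im +
        3 * c 9 * z.im ^ 2)
  obtain ⟨A2, A3, hline⟩ := cubic_line c z v
  simp only [hA1, h0, mul_zero, add_zero, zero_add] at hline
  obtain ⟨t1, ht1, hf1⟩ := exists_exit ho hb hz hv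
  obtain ⟨t2, ht2, hf2⟩ := exists_exit ho hb hz (neg_ne_zero.2 hv)
  have e1 : t1 ^ 2 * (A2 + t1 * A3) = 0 := by
    have := hfr _ hf1
    rw [hline] at this
    linarith
  have e2 : t2 ^ 2 * (A2 - t2 * A3) = 0 := by
    have h1 := hfr _ hf2
    have h2 : z + (t2 : ℂ) * -v = z + ((-t2 : ℝ) : ℂ) * v := by push_cast; ring
    rw [h2, hline] at h1
    linarith
  have f1 := (mul_eq_zero.1 e1).resolve_left (pow_ne_zero _ ht1.ne')
  have f2 := (mul_eq_zero.1 e2).resolve_left (pow_ne_zero _ ht2.ne')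
  have hA3 : A3 = 0 := by
    have h3 : (t1 + t2) * A3 = 0 := by linarith
    exact (mul_eq_zero.1 h3).resolve_left (by positivity)
  have hA2 : A2 = 0 := by rw [hA3] at f1; linarith
  refine ⟨v, hv, fun t => ?_⟩
  rw [hline, hA2, hA3]
  ring

theorem line_contra {b p q : ℂ[X]} {a : ℂ} (hbd : b.natDegree ≤ 1) (hp : p.natDegree ≤ 2)
    (ha : a ≠ 0) (hdeg : (Del p q).coeff 6 ≠ 0)
    (hcop : IsCoprime (Del p q) (derivative (Del p q)))
    (hR : ∀ z, (cubic c z : ℂ) = a * Pt b p q z) {z v : ℂ} (hv : v ≠ 0)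
    (hline : ∀ t : ℝ, cubic c (z + t * v) = 0) : False := by
  set ℓ : ℂ[X] := C (conj v / v) * X + C (conj z - conj v / v * z) with hℓ
  set r : ℂ[X] := ℓ + b with hr
  have hrd : r.natDegree ≤ 1 := by
    rw [hr]
    refine (natDegree_add_le _ _).trans (max_le ?_ hbd)
    rw [hℓ]
    exact natDegree_linear_le
  have hG : r ^ 3 + p * r + q = 0 := by
    apply Polynomial.eq_zero_of_infinite_isRoot
    have hinj : Function.Injective fun t : ℝ => z + t * v := by
      intro s t h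
      simp only [add_right_inj] at h
      exact_mod_cast mul_right_cancel₀ hv h
    refine (Set.infinite_range_of_injective hinj).mono ?_
    rintro _ ⟨t, rfl⟩
    have h1 : Pt b p q (z + t * v) = 0 := by
      have := hR (z + t * v)
      rw [hline t, Complex.ofReal_zero] at this
      exact (mul_eq_zero.1 this.symm).resolve_left ha
    have h2 : r.eval (z + t * v) = sf b (z + t * v) := by
      rw [hr, hℓ, sf]
      simp only [eval_add, eval_mul, eval_C, eval_X, map_add, map_mul, Complex.conj_ofReal]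
      field_simp
      ring
    show (r ^ 3 + p * r + q).eval (z + t * v) = 0
    rw [← h1, Pt]
    simp only [eval_add, eval_mul, eval_pow, h2]
  have hq : q = -(r ^ 3 + p * r) := by linear_combination hG
  have hfac : Del p q = (p + 3 * r ^ 2) * ((p + 3 * r ^ 2) * -(4 * p + 3 * r ^ 2)) := by
    rw [Del, hq]
    ring
  have hd1 : (p + 3 * r ^ 2) ∣ Del p q := ⟨_, hfac⟩
  have hd2 : (p + 3 * r ^ 2) ∣ derivative (Del p q) := by
    refine ⟨derivative (p + 3 * r ^ 2) * -(4 * p + 3 * r ^ 2) +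
      derivative ((p + 3 * r ^ 2) * -(4 * p + 3 * r ^ 2)), ?_⟩
    rw [hfac, derivative_mul]
    ring
  have hu : IsUnit (p + 3 * r ^ 2) := hcop.isUnit_of_dvd' hd1 hd2
  obtain ⟨k, -, hk⟩ := Polynomial.isUnit_iff.1 hu
  apply hdeg
  rw [hfac, ← hk, ← mul_assoc, ← C_mul, coeff_C_mul]
  have h3 : (-(4 * p + 3 * r ^ 2)).coeff 6 = 0 := by
    apply coeff_eq_zero_of_natDegree_lt
    rw [natDegree_neg]
    refine lt_of_le_of_lt (natDegree_add_le _ _) (max_lt ?_ ?_)
    · rw [numC]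
      exact lt_of_le_of_lt (natDegree_C_mul_le _ _) (by omega)
    · rw [numC]
      refine lt_of_le_of_lt (natDegree_C_mul_le _ _) ?_
      have := natDegree_pow_le (p := r) (n := 2)
      omega
  rw [h3, mul_zero]

end Pool.Agent.H62c
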