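import Mathlib
import Pool.Agent.H62c.Moments

set_option autoImplicit false

namespace Pool.Agent.H62c

open MeasureTheory Set Polynomial ComplexConjugate

/-- squared positive part -/
noncomputable def sqp (x : ℝ) : ℝ := max x 0 ^ 2

theorem sqp_hasDerivAt (x : ℝ) : HasDerivAt sqp (2 * max x 0) x := by
  rcases lt_trichotomy x 0 with h | h | h
  · have e : sqp =ᶠ[nhds x] fun _ => 0 := by
      filter_upwards [Iio_mem_nhds h] with y hy
      rw [sqp, max_eq_right (le_of_lt hy)]
      norm_num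
    rw [max_eq_right h.le, mul_zero]
    exact (hasDerivAt_const x (0 : ℝ)).congr_of_eventuallyEq e
  · subst h
    rw [max_self, mul_zero, hasDerivAt_iff_isLittleO]
    have h1 : (fun x' : ℝ => sqp x' - sqp 0 - (x' - 0) • (0 : ℝ)) =O[nhds 0] fun x' => x' ^ 2 := by
      apply Asymptotics.IsBigO.of_bound 1
      filter_upwards with y
      simp only [sqp, max_self, smul_zero, sub_zero, ne_eq, OfNat.ofNat_ne_zero, not_false_eq_true,
        zero_pow, norm_pow, Real.norm_eq_abs, one_mul]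
      apply pow_le_pow_left₀ (abs_nonneg _)
      rw [abs_of_nonneg (le_max_right _ _)]
      exact max_le (le_abs_self _) (abs_nonneg _)
    refine h1.trans_isLittleO ?_
    have := Asymptotics.isLittleO_pow_id (𝕜 := ℝ) (n := 2) (by norm_num)
    simpa using this
  · have e : sqp =ᶠ[nhds x] fun y => y ^ 2 := by
      filter_upwards [Ioi_mem_nhds h] with y hy
      rw [sqp, max_eq_left (le_of_lt hy)]
    rw [max_eq_left h.le]
    have := (hasDerivAt_pow 2 x).congr_of_eventuallyEq e
    simpa using this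

/-- cutoff -/
noncomputable def cut (ε t : ℝ) : ℝ := sqp (1 - t / ε)

/-- minus the derivative of the cutoff -/
noncomputable def cutd (ε t : ℝ) : ℝ := 2 / ε * max (1 - t / ε) 0

theorem cut_hasDerivAt (ε t : ℝ) : HasDerivAt (cut ε) (-cutd ε t) t := by
  have h1 : HasDerivAt (fun t : ℝ => 1 - t / ε) (-(1 / ε)) t := by
    simpa using ((hasDerivAt_id t).div_const ε).const_sub 1
  have h2 := (sqp_hasDerivAt (1 - t / ε)).comp t h1
  have e : -cutd ε t = 2 * max (1 - t / ε) 0 * (-(1 / ε)) := by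
    unfold cutd
    ring
  rw [e]
  exact h2

theorem cutd_continuous (ε : ℝ) : Continuous (cutd ε) := by
  unfold cutd
  fun_prop

theorem cut_contDiff (ε : ℝ) : ContDiff ℝ 1 (cut ε) := by
  rw [contDiff_one_iff_deriv]
  refine ⟨fun t => (cut_hasDerivAt ε t).differentiableAt, ?_⟩
  have : deriv (cut ε) = fun t => -cutd ε t := funext fun t => (cut_hasDerivAt ε t).deriv
  rw [this]
  exact (cutd_continuous ε).neg

theorem cutd_nonneg {ε : ℝ} (hε : 0 < ε) (t : ℝ) : 0 ≤ cutd ε t := by
  unfold cutd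
  positivity

theorem cut_le {ε t : ℝ} (hε : 0 < ε) (ht : 0 ≤ t) : cut ε t ≤ ε / 2 * cutd ε t := by
  unfold cut cutd sqp
  have h1 : max (1 - t / ε) 0 ≤ 1 := by
    apply max_le _ zero_le_one
    have : 0 ≤ t / ε := by positivity
    linarith
  have h0 : 0 ≤ max (1 - t / ε) 0 := le_max_right _ _
  have h2 : ε / 2 * (2 / ε * max (1 - t / ε) 0) = max (1 - t / ε) 0 := by
    field_simp
  rw [h2]
  nlinarith

theorem cut_nonneg (ε t : ℝ) : 0 ≤ cut ε t := by
  unfold cut sqp
  positivity

theorem cut_zero (ε : ℝ) : cut ε 0 = 1 := by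
  unfold cut sqp
  simp

theorem cutd_mul_le {ε t : ℝ} (hε : 0 < ε) : cutd ε t * t ≤ ε * cutd ε t := by
  by_cases h : t < ε
  · have := cutd_nonneg hε t
    nlinarith
  · have : cutd ε t = 0 := by
      unfold cutd
      have : 1 - t / ε ≤ 0 := by
        have : 1 ≤ t / ε := by
          rw [le_div_iff₀ hε]
          linarith
        linarith
      rw [max_eq_right this, mul_zero]
    rw [this]
    simp

theorem cutd_pos {ε t : ℝ} (hε : 0 < ε) (ht : t < ε) : 0 < cutd ε t := by
  unfold cutd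
  have : 0 < 1 - t / ε := by
    have : t / ε < 1 := by
      rw [div_lt_iff₀ hε]
      linarith
    linarith
  have h2 : 0 < max (1 - t / ε) 0 := lt_max_of_lt_left this
  positivity

variable {b p q α β : ℂ[X]} {Ω : Set ℂ}

theorem WD.comp_real {R : ℂ → ℝ} {Rz Rs : ℂ → ℂ} (h : WD b (fun z => ((R z : ℝ) : ℂ)) Rz Rs)
    {ψ ψ' : ℝ → ℝ} (hψ : ∀ t, HasDerivAt ψ (ψ' t) t) (hc : Continuous ψ') :
    WD b (fun z => ((ψ (R z) : ℝ) : ℂ)) (fun z => ((ψ' (R z) : ℝ) : ℂ) * Rz z)
      (fun z => ((ψ' (R z) : ℝ) : ℂ) * Rs z) := by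
  have hR : ContDiff ℝ 1 R := by
    have := Complex.reCLM.contDiff.comp h.1
    simpa [Function.comp_def] using this
  have hψ1 : ContDiff ℝ 1 ψ := by
    rw [contDiff_one_iff_deriv]
    refine ⟨fun t => (hψ t).differentiableAt, ?_⟩
    rw [show deriv ψ = ψ' from funext fun t => (hψ t).deriv]
    exact hc
  have hcR : Continuous fun z => ((ψ' (R z) : ℝ) : ℂ) :=
    Complex.continuous_ofReal.comp (hc.comp hR.continuous)
  refine ⟨Complex.ofRealCLM.contDiff.comp (hψ1.comp hR), hcR.mul h.2.1, hcR.mul h.2.2.1, ?_⟩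
  intro z v
  have hRd : HasFDerivAt R (fderiv ℝ R z) z := (hR.differentiable one_ne_zero z).hasFDerivAt
  have h1 : HasFDerivAt (fun z => ψ (R z)) (ψ' (R z) • fderiv ℝ R z) z :=
    (hψ (R z)).comp_hasFDerivAt z hRd
  have h2 : HasFDerivAt (fun z => ((ψ (R z) : ℝ) : ℂ))
      (Complex.ofRealCLM.comp (ψ' (R z) • fderiv ℝ R z)) z :=
    Complex.ofRealCLM.hasFDerivAt.comp z h1
  have h3 : HasFDerivAt (fun z => ((R z : ℝ) : ℂ)) (Complex.ofRealCLM.comp (fderiv ℝ R z)) z :=
    Complex.ofRealCLM.hasFDerivAt.comp z hRd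
  have h4 := h.2.2.2 z v
  rw [h3.fderiv] at h4
  rw [h2.fderiv]
  simp only [ContinuousLinearMap.comp_apply, Complex.ofRealCLM_apply, smul_apply, smul_eq_mul,
    Complex.ofReal_mul] at h4 ⊢
  rw [h4]
  ring

/-- first component of the vector field -/
noncomputable def uf (b p q β : ℂ[X]) (z : ℂ) : ℂ :=
  β.eval z * (18 * p.eval z * sf b z - 27 * q.eval z)

/-- second component of the vector field -/
noncomputable def vf (b p q α β : ℂ[X]) (z : ℂ) : ℂ :=
  α.eval z * (-6 * p.eval z * sf b z ^ 2 + 9 * q.eval z * sf b z - 4 * p.eval z ^ 2) +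
  β.eval z * (-9 * (derivative p).eval z * sf b z ^ 2 + 9 * (derivative q).eval z * sf b z -
    12 * p.eval z * (derivative p).eval z)

/-- the factor -/
noncomputable def tf (b p q α β : ℂ[X]) (z : ℂ) : ℂ :=
  α.eval z * (18 * p.eval z * sf b z - 27 * q.eval z) +
  β.eval z * (27 * (derivative p).eval z * sf b z - 27 * (derivative q).eval z)

theorem field_identity (hBez : α * Del p q + β * derivative (Del p q) = 1) (z : ℂ) :
    uf b p q β z * ((derivative p).eval z * sf b z + (derivative q).eval z) +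
      vf b p q α β z * (3 * sf b z ^ 2 + p.eval z) + tf b p q α β z * Pt b p q z = 1 := by
  have h := congrArg (eval z) hBez
  rw [Del_deriv, Del] at h
  simp only [eval_add, eval_mul, eval_sub, eval_neg, eval_pow, eval_ofNat, eval_one] at h
  unfold uf vf tf Pt
  rw [← h]
  ring

/-- first coefficient of the divergence -/
noncomputable def Afun (q α β : ℂ[X]) : ℂ[X] :=
  9 * α * q - 27 * derivative β * q - 18 * β * derivative q

/-- second coefficient of the divergence -/
noncomputable def Bfun (p α β : ℂ[X]) : ℂ[X] := 18 * derivative β * p - 12 * α * p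

theorem WD.uf : ∃ us, WD b (uf b p q β)
    (fun z => (derivative β).eval z * (18 * p.eval z * Pool.Agent.H62c.sf b z - 27 * q.eval z) +
      β.eval z * (18 * (derivative p).eval z * Pool.Agent.H62c.sf b z -
        27 * (derivative q).eval z)) us := by
  have h1 : WD b (fun z => 18 * p.eval z * Pool.Agent.H62c.sf b z - 27 * q.eval z) _ _ :=
    (((WD.poly p).smul 18).mul WD.sf).sub ((WD.poly q).smul 27)
  refine ⟨_, ((WD.poly β).mul h1).congr (fun z => rfl) (fun z => ?_) (fun z => rfl)⟩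
  ring

theorem WD.vf : ∃ vz, WD b (vf b p q α β) vz
    (fun z => α.eval z * (-12 * p.eval z * Pool.Agent.H62c.sf b z + 9 * q.eval z) +
      β.eval z * (-18 * (derivative p).eval z * Pool.Agent.H62c.sf b z +
        9 * (derivative q).eval z)) := by
  have h1 : WD b (fun z => -6 * p.eval z * Pool.Agent.H62c.sf b z ^ 2 +
      9 * q.eval z * Pool.Agent.H62c.sf b z - 4 * p.eval z ^ 2) _ _ :=
    ((((WD.poly p).smul (-6)).mul (WD.sf.pow 2)).add (((WD.poly q).smul 9).mul WD.sf)).sub
      (((WD.poly p).pow 2).smul 4)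
  have h2 : WD b (fun z => -9 * (derivative p).eval z * Pool.Agent.H62c.sf b z ^ 2 +
      9 * (derivative q).eval z * Pool.Agent.H62c.sf b z -
      12 * p.eval z * (derivative p).eval z) _ _ :=
    ((((WD.poly (derivative p)).smul (-9)).mul (WD.sf.pow 2)).add
      (((WD.poly (derivative q)).smul 9).mul WD.sf)).sub
      (((WD.poly p).smul 12).mul (WD.poly (derivative p)))
  refine ⟨_, (((WD.poly α).mul h1).add ((WD.poly β).mul h2)).congr (fun z => rfl)
    (fun z => rfl) (fun z => ?_)⟩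
  push_cast
  ring

theorem div_eq (z : ℂ) :
    ((derivative β).eval z * (18 * p.eval z * sf b z - 27 * q.eval z) +
      β.eval z * (18 * (derivative p).eval z * sf b z - 27 * (derivative q).eval z)) +
    (α.eval z * (-12 * p.eval z * sf b z + 9 * q.eval z) +
      β.eval z * (-18 * (derivative p).eval z * sf b z + 9 * (derivative q).eval z)) =
    (Afun q α β).eval z + (Bfun p α β).eval z * sf b z := by
  unfold Afun Bfun
  simp only [eval_mul, eval_sub, eval_ofNat]
  ring

theorem tf_continuous : Continuous (tf b p q α β) := by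
  have := sf_continuous b
  unfold tf
  fun_prop

/-- The invariant does not vanish. -/
theorem kappa_ne_zero (ho : IsOpen Ω) (hb : Bornology.IsBounded Ω) (hne : Ω.Nonempty)
    (hn : volume (frontier Ω) = 0) (hBez : α * Del p q + β * derivative (Del p q) = 1)
    {a : ℂ} (ha : a ≠ 0) {R : ℂ → ℝ} (hR : ∀ z, (R z : ℂ) = a * Pt b p q z)
    (hpos : ∀ z ∈ Ω, 0 < R z) (hzero : ∀ z ∈ frontier Ω, R z = 0) :
    ∫ z in Ω, ((Afun q α β).eval z + (Bfun p α β).eval z * sf b z) ≠ 0 := by
  intro hk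
  obtain ⟨us, hu⟩ := WD.uf (b := b) (p := p) (q := q) (β := β)
  obtain ⟨vz, hv⟩ := WD.vf (b := b) (p := p) (q := q) (α := α) (β := β)
  have hRW : WD b (fun z => ((R z : ℝ) : ℂ)) _ _ :=
    ((WD.Pt (b := b) (p := p) (q := q)).smul a).congr hR (fun _ => rfl) (fun _ => rfl)
  have hRc : Continuous R := by
    have := Complex.continuous_re.comp hRW.1.continuous
    simpa [Function.comp_def] using this
  set dv : ℂ → ℂ := fun z => (Afun q α β).eval z + (Bfun p α β).eval z * sf b z with hdv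
  have hdvc : Continuous dv := by
    have := sf_continuous b
    rw [hdv]
    fun_prop
  have htc := tf_continuous (b := b) (p := p) (q := q) (α := α) (β := β)
  obtain ⟨r, hr⟩ := hb.subset_closedBall (0 : ℂ)
  obtain ⟨D, hD⟩ := (isCompact_closedBall (0 : ℂ) r).exists_bound_of_continuousOn hdvc.continuousOn
  obtain ⟨T, hT⟩ := (isCompact_closedBall (0 : ℂ) r).exists_bound_of_continuousOn htc.continuousOn
  obtain ⟨z0, hz0⟩ := hne
  have hD0 : 0 ≤ D := (norm_nonneg _).trans (hD z0 (hr hz0))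
  have hT0 : 0 ≤ T := (norm_nonneg _).trans (hT z0 (hr hz0))
  set ε : ℝ := ‖a‖ / (D / 2 + T + 1) with hε
  have hεpos : 0 < ε := by
    have := norm_pos_iff.2 ha
    positivity
  have hsmall : ε * (D / 2 + T) < ‖a‖ := by
    have h1 : ε * (D / 2 + T + 1) = ‖a‖ := by
      rw [hε]; field_simp
    linarith
  -- the weight
  set φ : ℂ → ℝ := fun z => cutd ε (R z) with hφ
  have hφc : Continuous φ := (cutd_continuous ε).comp hRc
  have hφ0 : ∀ z, 0 ≤ φ z := fun z => cutd_nonneg hεpos _
  have hψc : Continuous fun z => cut ε (R z) := (cut_contDiff ε).continuous.comp hRc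
  -- positivity of the weight
  have hI : 0 < ∫ z in Ω, φ z := by
    obtain ⟨zf, hzf⟩ : (frontier Ω).Nonempty := by
      rw [nonempty_frontier_iff]
      refine ⟨⟨z0, hz0⟩, ?_⟩
      rintro rfl
      exact (NoncompactSpace.noncompact_univ (X := ℂ)) (Metric.isCompact_of_isClosed_isBounded isClosed_univ hb)
    have hlt : R zf < ε := by rw [hzero zf hzf]; exact hεpos
    have hop : IsOpen {z | R z < ε} := isOpen_lt hRc continuous_const
    obtain ⟨z1, hz1, hz1Ω⟩ := mem_closure_iff.1 (frontier_subset_closure hzf) _ hop hlt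
    rw [setIntegral_pos_iff_support_of_nonneg_ae (ae_of_all _ hφ0) (integrableOn_bdd hb hφc)]
    have hopen : IsOpen (Function.support φ ∩ Ω) := (hφc.isOpen_support).inter ho
    exact hopen.measure_pos volume ⟨z1, (cutd_pos hεpos hz1).ne', hz1Ω⟩
  -- the cutoff field
  have hχ := (WD.const (b := b) 1).sub (hRW.comp_real (cut_hasDerivAt ε) (cutd_continuous ε).neg)
  have hfr : ∀ z ∈ frontier Ω, (1 : ℂ) - ((cut ε (R z) : ℝ) : ℂ) = 0 := by
    intro z hz
    rw [hzero z hz, cut_zero]
    simp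
  have i1 := (hχ.mul hu).int_z ho hb hn (fun z hz => by simp only [hfr z hz, zero_mul])
  have i2 := (hχ.mul hv).int_s ho hb hn (fun z hz => by simp only [hfr z hz, zero_mul])
  have c1 := integrableOn_bdd hb (hχ.mul hu).2.1
  have c2 := integrableOn_bdd hb (hχ.mul hv).2.2.1
  have i3 := integral_add c1 c2
  rw [i1, i2, add_zero] at i3
  have hcψ : Continuous fun z => ((cut ε (R z) : ℝ) : ℂ) := Complex.continuous_ofReal.comp hψc
  have hcφ : Continuous fun z => ((φ z : ℝ) : ℂ) := Complex.continuous_ofReal.comp hφc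
  have hcR : Continuous fun z => ((R z : ℝ) : ℂ) := Complex.continuous_ofReal.comp hRc
  have e3 : ∫ z in Ω, ((dv z - ((cut ε (R z) : ℝ) : ℂ) * dv z) +
      ((φ z : ℝ) : ℂ) * (a - tf b p q α β z * ((R z : ℝ) : ℂ))) = 0 := by
    rw [← i3]
    apply integral_congr_ae
    filter_upwards with z
    have h1 := field_identity (b := b) hBez z
    have h2 := div_eq (b := b) (p := p) (q := q) (α := α) (β := β) z
    simp only [hdv]
    rw [← h2, hR z]
    push_cast
    simp only [hφ]
    linear_combination (-(a * ((cutd ε (R z) : ℝ) : ℂ))) * h1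
  have j1 : IntegrableOn dv Ω := integrableOn_bdd hb hdvc
  have j2 : IntegrableOn (fun z => ((cut ε (R z) : ℝ) : ℂ) * dv z) Ω :=
    integrableOn_bdd hb (hcψ.mul hdvc)
  have j3 : IntegrableOn (fun z => a * ((φ z : ℝ) : ℂ)) Ω :=
    integrableOn_bdd hb (continuous_const.mul hcφ)
  have j4 : IntegrableOn (fun z => ((φ z : ℝ) : ℂ) * (tf b p q α β z * ((R z : ℝ) : ℂ))) Ω :=
    integrableOn_bdd hb (hcφ.mul (htc.mul hcR))
  have e4 : a * ((∫ z in Ω, φ z : ℝ) : ℂ) = (∫ z in Ω, ((cut ε (R z) : ℝ) : ℂ) * dv z) +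
      ∫ z in Ω, ((φ z : ℝ) : ℂ) * (tf b p q α β z * ((R z : ℝ) : ℂ)) := by
    have e5 : ∫ z in Ω, ((dv z - ((cut ε (R z) : ℝ) : ℂ) * dv z) +
        (a * ((φ z : ℝ) : ℂ) - ((φ z : ℝ) : ℂ) * (tf b p q α β z * ((R z : ℝ) : ℂ)))) = 0 := by
      rw [← e3]
      apply integral_congr_ae
      filter_upwards with z
      ring
    have j12 : IntegrableOn (fun z => dv z - ((cut ε (R z) : ℝ) : ℂ) * dv z) Ω := j1.sub j2
    have j34 : IntegrableOn (fun z => a * ((φ z : ℝ) : ℂ) -
      ((φ z : ℝ) : ℂ) * (tf b p q α β z * ((R z : ℝ) : ℂ))) Ω := j3.sub j4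
    rw [integral_add j12 j34, integral_sub j1 j2, integral_sub j3 j4,
      integral_const_mul, integral_complex_ofReal, hk] at e5
    linear_combination e5
  have n1 : ‖∫ z in Ω, ((cut ε (R z) : ℝ) : ℂ) * dv z‖ ≤ ∫ z in Ω, (ε / 2 * D) * φ z := by
    apply norm_integral_le_of_norm_le (integrableOn_bdd hb (continuous_const.mul hφc))
    filter_upwards [ae_restrict_mem ho.measurableSet] with z hz
    rw [norm_mul, Complex.norm_real, Real.norm_eq_abs, abs_of_nonneg (cut_nonneg _ _)]
    have h1 := cut_le hεpos (hpos z hz).le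
    have h2 := hD z (hr hz)
    calc cut ε (R z) * ‖dv z‖ ≤ (ε / 2 * φ z) * D :=
          mul_le_mul h1 h2 (norm_nonneg _) (mul_nonneg (by positivity) (hφ0 z))
      _ = (ε / 2 * D) * φ z := by ring
  have n2 : ‖∫ z in Ω, ((φ z : ℝ) : ℂ) * (tf b p q α β z * ((R z : ℝ) : ℂ))‖ ≤
      ∫ z in Ω, (ε * T) * φ z := by
    apply norm_integral_le_of_norm_le (integrableOn_bdd hb (continuous_const.mul hφc))
    filter_upwards [ae_restrict_mem ho.measurableSet] with z hz
    rw [norm_mul, norm_mul, Complex.norm_real, Complex.norm_real, Real.norm_eq_abs,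
      Real.norm_eq_abs, abs_of_nonneg (hφ0 z), abs_of_pos (hpos z hz)]
    have h1 : φ z * R z ≤ ε * φ z := cutd_mul_le hεpos
    have h2 := hT z (hr hz)
    calc φ z * (‖tf b p q α β z‖ * R z) = ‖tf b p q α β z‖ * (φ z * R z) := by ring
      _ ≤ T * (ε * φ z) := mul_le_mul h2 h1 (mul_nonneg (hφ0 z) (hpos z hz).le) hT0
      _ = (ε * T) * φ z := by ring
  rw [integral_const_mul] at n1 n2
  have n3 : ‖a‖ * (∫ z in Ω, φ z) ≤ (ε / 2 * D) * (∫ z in Ω, φ z) + (ε * T) * (∫ z in Ω, φ z) := by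
    have h1 := congrArg norm e4
    rw [norm_mul, Complex.norm_real, Real.norm_eq_abs, abs_of_pos hI] at h1
    rw [h1]
    exact (norm_add_le _ _).trans (add_le_add n1 n2)
  have n4 : (ε / 2 * D) * (∫ z in Ω, φ z) + (ε * T) * (∫ z in Ω, φ z) =
      (ε * (D / 2 + T)) * ∫ z in Ω, φ z := by ring
  rw [n4] at n3
  have n5 := le_of_mul_le_mul_right n3 hI
  linarith

end Pool.Agent.H62c
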