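import Mathlib
import Pool.Agent.H62c.Ev
import Pool.Agent.H62c.Defs
import Pool.Agent.H62c.Moments
import Pool.Agent.H62c.Rational

set_option autoImplicit false
set_option synthInstance.maxHeartbeats 400000
set_option maxHeartbeats 1000000

namespace Pool.Agent.H62c

open MeasureTheory Set

variable {Ω : Set ℂ}

/-- moments -/
noncomputable def mom (Ω : Set ℂ) (k : ℕ) : ℂ := ∫ ζ in Ω, ζ ^ k

theorem cauchy_expand (hb : Bornology.IsBounded Ω) {r : ℝ} (hr0 : 0 < r)
    (hr : Ω ⊆ Metric.closedBall 0 r) (hm : MeasurableSet Ω) {t : ℂ} (ht0 : t ≠ 0)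
    (ht : ‖t‖ * r < 1) :
    HasSum (fun k => mom Ω k * t ^ (k + 1)) (∫ ζ in Ω, 1 / (t⁻¹ - ζ)) := by
  have hfin : volume Ω < ⊤ := hb.measure_lt_top
  have hint : ∀ k : ℕ, IntegrableOn (fun ζ : ℂ => ζ ^ k * t ^ (k + 1)) Ω := fun k =>
    integrableOn_bdd hb ((continuous_id.pow k).mul continuous_const)
  have hbound : ∀ k : ℕ, ∫ ζ in Ω, ‖ζ ^ k * t ^ (k + 1)‖ ≤
      (volume.real Ω * ‖t‖) * (‖t‖ * r) ^ k := by
    intro k
    have h1 : ∫ ζ in Ω, ‖ζ ^ k * t ^ (k + 1)‖ ≤ ∫ ζ in Ω, (‖t‖ * (‖t‖ * r) ^ k : ℝ) := by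
      apply setIntegral_mono_on (hint k).norm (integrableOn_const hfin.ne) hm
      intro ζ hζ
      have h2 := mem_closedBall_zero_iff.1 (hr hζ)
      rw [norm_mul, norm_pow, norm_pow, pow_succ, mul_pow]
      calc ‖ζ‖ ^ k * (‖t‖ ^ k * ‖t‖) ≤ r ^ k * (‖t‖ ^ k * ‖t‖) := by gcongr
        _ = _ := by ring
    refine h1.trans (le_of_eq ?_)
    rw [setIntegral_const, smul_eq_mul]
    ring
  have hsum : Summable fun k : ℕ => ∫ ζ in Ω, ‖ζ ^ k * t ^ (k + 1)‖ := by
    refine Summable.of_nonneg_of_le (fun k => integral_nonneg fun _ => norm_nonneg _) hbound ?_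
    exact (summable_geometric_of_lt_one (by positivity) ht).mul_left _
  have h3 := hasSum_integral_of_summable_integral_norm hint hsum
  have h4 : ∫ ζ in Ω, ∑' k : ℕ, ζ ^ k * t ^ (k + 1) = ∫ ζ in Ω, 1 / (t⁻¹ - ζ) := by
    apply setIntegral_congr_fun hm
    intro ζ hζ
    have h5 := mem_closedBall_zero_iff.1 (hr hζ)
    have h6 : ‖ζ * t‖ < 1 := by
      rw [norm_mul]
      calc ‖ζ‖ * ‖t‖ ≤ r * ‖t‖ := by gcongr
        _ < 1 := by linarith
    have h7 := (hasSum_geometric_of_norm_lt_one h6).mul_left t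
    have h8 : ∑' k : ℕ, ζ ^ k * t ^ (k + 1) = t * (1 - ζ * t)⁻¹ := by
      rw [← h7.tsum_eq]
      congr 1
      ext k
      rw [mul_pow, pow_succ]
      ring
    simp only
    rw [h8]
    have h9 : 1 - ζ * t ≠ 0 := by
      intro h
      have : ζ * t = 1 := by linear_combination -h
      rw [this, norm_one] at h6
      exact lt_irrefl _ h6
    have h10 : t⁻¹ - ζ = (1 - ζ * t) / t := by field_simp
    rw [h10]
    field_simp
  rw [h4] at h3
  refine h3.congr_fun fun k => ?_
  rw [mom, integral_mul_const]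

/-- power series of the Cauchy transform in the variable `1/x` -/
noncomputable def CS (Ω : Set ℂ) : PowerSeries ℂ :=
  PowerSeries.mk fun n => if n = 0 then 0 else (1 / (Real.pi : ℂ)) * mom Ω (n - 1)

theorem CS_hasEv (hb : Bornology.IsBounded Ω) {r : ℝ} (hr0 : 0 < r)
    (hr : Ω ⊆ Metric.closedBall 0 r) (hm : MeasurableSet Ω) {ρ : ℝ} (hρ : 0 < ρ) (hρr : ρ * r < 1)
    {t : ℂ} (ht0 : t ≠ 0) (ht : ‖t‖ ≤ ρ) : HasEv ρ t (CS Ω) (cauchyTransform Ω t⁻¹) := by
  have hfin : volume Ω < ⊤ := hb.measure_lt_top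
  refine ⟨?_, ?_⟩
  · rw [← summable_nat_add_iff 1]
    have hb2 : ∀ k : ℕ, ‖mom Ω k‖ ≤ volume.real Ω * r ^ k := by
      intro k
      have := norm_setIntegral_le_of_norm_le_const (μ := volume) (s := Ω) (f := fun ζ : ℂ => ζ ^ k)
        (C := r ^ k) hfin (fun ζ hζ => by
          rw [norm_pow]
          have := mem_closedBall_zero_iff.1 (hr hζ)
          gcongr)
      rw [mul_comm]
      exact this
    refine Summable.of_nonneg_of_le (fun k => by positivity) (fun k => ?_)
      ((summable_geometric_of_lt_one (by positivity) hρr).mul_left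
        (‖(1 / (Real.pi : ℂ))‖ * volume.real Ω * ρ))
    rw [CS, PowerSeries.coeff_mk, if_neg (Nat.succ_ne_zero k), norm_mul, Nat.add_sub_cancel,
      pow_succ, mul_pow]
    calc ‖(1 / (Real.pi : ℂ))‖ * ‖mom Ω k‖ * (ρ ^ k * ρ)
        ≤ ‖(1 / (Real.pi : ℂ))‖ * (volume.real Ω * r ^ k) * (ρ ^ k * ρ) := by
          gcongr
          exact hb2 k
      _ = _ := by ring
  · have h1 := (cauchy_expand hb hr0 hr hm ht0 (lt_of_le_of_lt (by gcongr) hρr)).mul_left
      (1 / (Real.pi : ℂ))
    rw [← hasSum_nat_add_iff' 1]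
    rw [Finset.sum_range_one]
    have h0 : PowerSeries.coeff 0 (CS Ω) * t ^ 0 = 0 := by
      rw [CS, PowerSeries.coeff_mk, if_pos rfl, zero_mul]
    rw [h0, sub_zero]
    refine h1.congr_fun fun k => ?_
    rw [CS, PowerSeries.coeff_mk, if_neg (Nat.succ_ne_zero k), Nat.add_sub_cancel]
    ring

theorem CS_coe : HahnSeries.ofPowerSeries ℤ ℂ (CS Ω) =
    HahnSeries.C (1 / (Real.pi : ℂ)) * MS Ω (fun _ => 1) := by
  have hc : ∀ n, (HahnSeries.C (1 / (Real.pi : ℂ)) * MS Ω (fun _ => 1)).coeff n =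
      (1 / (Real.pi : ℂ)) * (MS Ω (fun _ => 1)).coeff n := by
    intro n
    rw [HahnSeries.C_apply, HahnSeries.coeff_single_zero_mul]
  apply LS_ext
  · intro n hn
    rw [hc, MS_coeff_nonpos _ _ hn, mul_zero]
    by_cases h0 : n = 0
    · subst h0
      have := HahnSeries.ofPowerSeries_apply_coeff (Γ := ℤ) (CS Ω) 0
      simp only [Nat.cast_zero] at this
      rw [this, CS, PowerSeries.coeff_mk, if_pos rfl]
    · apply HahnSeries.embDomain_of_notMem_range
      simp only [Set.mem_range, not_exists]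
      intro k hk
      have : (k : ℤ) = n := hk
      omega
  · intro k
    rw [hc, MS_coeff_nat]
    have := HahnSeries.ofPowerSeries_apply_coeff (Γ := ℤ) (CS Ω) (k + 1)
    push_cast at this
    rw [this, CS, PowerSeries.coeff_mk, if_neg (Nat.succ_ne_zero k), Nat.add_sub_cancel, mom]
    simp only [mul_one]

theorem outer_of_large {r : ℝ} (hr0 : 0 < r) (hr : Ω ⊆ Metric.closedBall 0 r) {x : ℂ}
    (hx : r < ‖x‖) : x ∈ outer Ω := by
  have hV : IsPreconnected {y : ℂ | r < ‖y‖} := by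
    have h1 : {y : ℂ | r < ‖y‖} = Complex.exp '' {w : ℂ | Real.log r < w.re} := by
      ext y
      constructor
      · intro hy
        have hy0 : y ≠ 0 := by
          rintro rfl
          simp only [mem_ofPred_eq, norm_zero] at hy
          linarith
        refine ⟨Complex.log y, ?_, Complex.exp_log hy0⟩
        show Real.log r < (Complex.log y).re
        rw [Complex.log_re]
        exact Real.log_lt_log hr0 hy
      · rintro ⟨w, hw, rfl⟩
        show r < ‖Complex.exp w‖
        rw [Complex.norm_exp]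
        exact (Real.log_lt_iff_lt_exp hr0).1 hw
    rw [h1]
    exact (convex_halfSpace_re_gt _).isPreconnected.image _ Complex.continuous_exp.continuousOn
  have hcl : closure Ω ⊆ Metric.closedBall 0 r := closure_minimal hr Metric.isClosed_closedBall
  have hsub : {y : ℂ | r < ‖y‖} ⊆ (closure Ω)ᶜ := by
    intro y hy h
    have := mem_closedBall_zero_iff.1 (hcl h)
    exact absurd this (not_le.2 hy)
  refine ⟨hsub hx, ?_⟩
  intro hb
  have h2 : {y : ℂ | r < ‖y‖} ⊆ connectedComponentIn (closure Ω)ᶜ x :=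
    hV.subset_connectedComponentIn hx hsub
  obtain ⟨R, hR⟩ := (hb.subset h2).subset_closedBall (0 : ℂ)
  have h3 : (((|R| + r + 1 : ℝ) : ℂ)) ∈ {y : ℂ | r < ‖y‖} := by
    show r < ‖((|R| + r + 1 : ℝ) : ℂ)‖
    rw [Complex.norm_real, Real.norm_eq_abs, abs_of_pos (by positivity)]
    have := abs_nonneg R
    linarith
  have h4 := mem_closedBall_zero_iff.1 (hR h3)
  rw [Complex.norm_real, Real.norm_eq_abs, abs_of_pos (by positivity)] at h4
  have := le_abs_self R
  linarith

/-- Algebraicity of the transform gives algebraicity of the moment series. -/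
theorem transfer (ho : IsOpen Ω) (hb : Bornology.IsBounded Ω) (h : AlgebraicCT Ω) :
    IsIntegral KK (MS Ω (fun _ => 1)) := by
  classical
  obtain ⟨Q, hQ0, hQ⟩ := h
  obtain ⟨r', hr'⟩ := hb.subset_closedBall (0 : ℂ)
  set r : ℝ := max r' 1 with hrdef
  have hr0 : 0 < r := lt_of_lt_of_le one_pos (le_max_right _ _)
  have hr : Ω ⊆ Metric.closedBall 0 r :=
    hr'.trans (Metric.closedBall_subset_closedBall (le_max_left _ _))
  set ρ : ℝ := 1 / (2 * r) with hρdef
  have hρ : 0 < ρ := by positivity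
  have hρr : ρ * r < 1 := by
    rw [hρdef]
    field_simp
    norm_num
  obtain ⟨N, hN⟩ : ∃ N : ℕ, ∀ m ∈ Q.support, m 0 ≤ N :=
    ⟨Q.support.sup fun m => m 0, fun m hm => Finset.le_sup (f := fun m => m 0) hm⟩
  set Ψ : PowerSeries ℂ := ∑ m ∈ Q.support,
    PowerSeries.C (Q.coeff m) * PowerSeries.X ^ (N - m 0) * (CS Ω) ^ (m 1) with hΨ
  have hΨ0 : Ψ = 0 := by
    apply eq_zero_of_hasEv hρ
    intro t ht0 ht
    have hF := CS_hasEv hb hr0 hr ho.measurableSet hρ hρr ht0 ht
    have hev : HasEv ρ t Ψ (∑ m ∈ Q.support,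
        Q.coeff m * t ^ (N - m 0) * (cauchyTransform Ω t⁻¹) ^ (m 1)) :=
      HasEv.sum _ (fun m _ => ((HasEv.C _).mul (HasEv.X.pow hρ.le ht _) hρ.le ht).mul
        (hF.pow hρ.le ht _) hρ.le ht) hρ.le
    have hout : t⁻¹ ∈ outer Ω := by
      apply outer_of_large hr0 hr
      rw [norm_inv]
      have h1 : 0 < ‖t‖ := norm_pos_iff.2 ht0
      rw [lt_inv_comm₀ hr0 h1]
      calc ‖t‖ ≤ ρ := ht
        _ < r⁻¹ := by
          rw [hρdef, inv_eq_one_div]
          apply one_div_lt_one_div_of_lt hr0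
          linarith
    have hval : ∑ m ∈ Q.support, Q.coeff m * t ^ (N - m 0) * (cauchyTransform Ω t⁻¹) ^ (m 1) =
        t ^ N * MvPolynomial.eval ![t⁻¹, cauchyTransform Ω t⁻¹] Q := by
      rw [MvPolynomial.eval_eq', Finset.mul_sum]
      apply Finset.sum_congr rfl
      intro m hm
      rw [Fin.prod_univ_two]
      simp only [Matrix.cons_val_zero, Matrix.cons_val_one]
      have h2 : t ^ N = t ^ (N - m 0) * t ^ (m 0) := by
        rw [← pow_add, Nat.sub_add_cancel (hN m hm)]
      rw [h2, inv_pow]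
      field_simp
    rw [hval, hQ _ hout, mul_zero] at hev
    exact hev
  set F : LS := HahnSeries.C (1 / (Real.pi : ℂ)) * MS Ω (fun _ => 1) with hFdef
  have hrel : ∑ m ∈ Q.support, px (Polynomial.monomial (m 0) (Q.coeff m)) * F ^ (m 1) = 0 := by
    have h1 := congrArg (HahnSeries.ofPowerSeries ℤ ℂ) hΨ0
    rw [hΨ, map_sum, map_zero] at h1
    have h2 : xx * HahnSeries.single (1 : ℤ) (1 : ℂ) = 1 := by
      rw [xx, HahnSeries.single_mul_single]
      simp
    have h3 : ∀ m ∈ Q.support, px (Polynomial.monomial (m 0) (Q.coeff m)) * F ^ (m 1) =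
        xx ^ N * (HahnSeries.ofPowerSeries ℤ ℂ) (PowerSeries.C (Q.coeff m) *
          PowerSeries.X ^ (N - m 0) * (CS Ω) ^ (m 1)) := by
      intro m hm
      rw [map_mul, map_mul, map_pow, map_pow, CS_coe, HahnSeries.ofPowerSeries_C,
        HahnSeries.ofPowerSeries_X]
      have h4 : xx ^ N = xx ^ (N - m 0) * xx ^ (m 0) := by
        rw [← pow_add, Nat.sub_add_cancel (hN m hm)]
      have h5 : px (Polynomial.monomial (m 0) (Q.coeff m)) =
          HahnSeries.C (Q.coeff m) * xx ^ (m 0) := by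
        rw [← Polynomial.C_mul_X_pow_eq_monomial, map_mul, map_pow, px_C, px_X]
      rw [h4, h5]
      have h6 : xx ^ (N - m 0) * (HahnSeries.single (1 : ℤ) (1 : ℂ)) ^ (N - m 0) = 1 := by
        rw [← mul_pow, h2, one_pow]
      linear_combination (-(HahnSeries.C (Q.coeff m) * xx ^ (m 0) * F ^ (m 1))) * h6
    rw [Finset.sum_congr rfl h3, ← Finset.mul_sum, h1, mul_zero]
  set W : Polynomial KK := ∑ m ∈ Q.support,
    Polynomial.monomial (m 1) (pk (Polynomial.monomial (m 0) (Q.coeff m))) with hW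
  have hW0 : W ≠ 0 := by
    intro h
    obtain ⟨m, hm⟩ : ∃ m, Q.coeff m ≠ 0 := by
      by_contra hh
      push Not at hh
      exact hQ0 (MvPolynomial.ext _ _ fun m => by rw [hh m, MvPolynomial.coeff_zero])
    apply hm
    have h1 := congrArg (fun P : Polynomial KK => P.coeff (m 1)) h
    simp only [hW, Polynomial.finsetSum_coeff, Polynomial.coeff_monomial, Polynomial.coeff_zero] at h1
    have h2 : pk (∑ m' ∈ Q.support, if m' 1 = m 1 then Polynomial.monomial (m' 0) (Q.coeff m')
        else 0) = 0 := by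
      rw [map_sum, ← h1]
      apply Finset.sum_congr rfl
      intro m' _
      split_ifs
      · rfl
      · rw [map_zero]
    have h3 := pk_injective (h2.trans (map_zero pk).symm)
    have h4 := congrArg (fun P : Polynomial ℂ => P.coeff (m 0)) h3
    simp only [Polynomial.finsetSum_coeff, Polynomial.coeff_zero] at h4
    rw [Finset.sum_eq_single m] at h4
    · simpa using h4
    · intro m' _ hne
      split_ifs with h5
      · rw [Polynomial.coeff_monomial, if_neg]
        intro h6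
        apply hne
        ext i
        fin_cases i
        · exact h6
        · exact h5
      · rw [Polynomial.coeff_zero]
    · intro hnot
      rw [if_pos rfl, Polynomial.coeff_monomial, if_pos rfl]
      exact MvPolynomial.notMem_support_iff.1 hnot
  have hWF : Polynomial.aeval F W = 0 := by
    rw [hW, map_sum, ← hrel]
    apply Finset.sum_congr rfl
    intro m _
    rw [Polynomial.aeval_monomial]
    rfl
  have hFalg : IsIntegral KK F := isAlgebraic_iff_isIntegral.1 ⟨W, hW0, hWF⟩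
  have hπ : (Real.pi : ℂ) ≠ 0 := by exact_mod_cast Real.pi_ne_zero
  have hMS : MS Ω (fun _ => 1) = algebraMap KK LS (pk (Polynomial.C (Real.pi : ℂ))) * F := by
    have h1 : algebraMap KK LS (pk (Polynomial.C (Real.pi : ℂ))) = HahnSeries.C (Real.pi : ℂ) := by
      rw [← px_C]
      rfl
    rw [h1, hFdef, ← mul_assoc, ← map_mul, mul_one_div_cancel hπ, map_one, one_mul]
  rw [hMS]
  exact isIntegral_algebraMap.mul hFalg

end Pool.Agent.H62c
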