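import Mathlib
import Pool.Agent.H62c.Generic
import Pool.Agent.H62c.Geom
import Pool.Agent.H62c.NoZero
import Pool.Agent.H62c.Positive
import Pool.Agent.H62c.Transfer
import Pool.Agent.H62c.Main

set_option autoImplicit false
set_option maxHeartbeats 1000000

namespace Pool.Agent.H62c

open Polynomial ComplexConjugate MeasureTheory Set

theorem natDegree_C_mul' {P : ℂ[X]} {n : ℕ} (a : ℂ) (h : P.natDegree ≤ n) :
    (C a * P).natDegree ≤ n := (natDegree_C_mul_le _ _).trans h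

theorem natDegree_pow' {P : ℂ[X]} {n : ℕ} (k : ℕ) (h : P.natDegree ≤ n) :
    (P ^ k).natDegree ≤ k * n := natDegree_pow_le.trans (Nat.mul_le_mul_left k h)

theorem bb_deg (c : Fin 10 → ℂ) : (bb c).natDegree ≤ 1 :=
  natDegree_C_mul' _ (natDegree_C_mul' _ (gb_deg _ c))

theorem pp_deg (c : Fin 10 → ℂ) : (pp c).natDegree ≤ 2 := by
  unfold pp
  refine (natDegree_sub_le _ _).trans (max_le (natDegree_C_mul' _ (gc_deg _ c)) ?_)
  exact natDegree_C_mul' _ (natDegree_pow' 2 (natDegree_C_mul' _ (gb_deg _ c)))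

theorem qq_deg (c : Fin 10 → ℂ) : (qq c).natDegree ≤ 3 := by
  unfold qq
  refine (natDegree_add_le _ _).trans (max_le ((natDegree_sub_le _ _).trans (max_le ?_ ?_)) ?_)
  · exact natDegree_C_mul' _ (natDegree_pow' 3 (natDegree_C_mul' _ (gb_deg _ c)))
  · refine natDegree_mul_le.trans ?_
    have h1 := natDegree_C_mul' (1 / 3) (natDegree_C_mul' (gl (RingHom.id ℂ) c)⁻¹ (gb_deg (RingHom.id ℂ) c))
    have h2 := natDegree_C_mul' (gl (RingHom.id ℂ) c)⁻¹ (gc_deg (RingHom.id ℂ) c)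
    omega
  · exact natDegree_C_mul' _ (gd_deg _ c)

theorem gD_deg (c : Fin 10 → ℂ) (h : gl (RingHom.id ℂ) c ≠ 0) :
    (gD (RingHom.id ℂ) c).natDegree ≤ 6 := by
  rw [← Del_eq c h]
  exact natDegree_C_mul' _ (Del_natDegree (pp_deg c) (qq_deg c))

theorem generic_facts {c : Fin 10 → ℂ} (h : gE (RingHom.id ℂ) c ≠ 0) :
    gl (RingHom.id ℂ) c ≠ 0 ∧ c 9 ≠ 0 ∧ (Del (pp c) (qq c)).coeff 6 ≠ 0 ∧
      ∃ α β : ℂ[X], α * Del (pp c) (qq c) + β * derivative (Del (pp c) (qq c)) = 1 := by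
  unfold gE at h
  have h1 := left_ne_zero_of_mul h
  have hres := right_ne_zero_of_mul h
  have h6 := right_ne_zero_of_mul h1
  have h2 := left_ne_zero_of_mul h1
  have h9 := right_ne_zero_of_mul h2
  have hl := left_ne_zero_of_mul h2
  have hD := Del_eq c hl
  refine ⟨hl, h9, ?_, ?_⟩
  · intro h0
    apply h6
    rw [← hD, coeff_C_mul, h0, mul_zero]
  · have hd := gD_deg c hl
    have hd' : (derivative (gD (RingHom.id ℂ) c)).natDegree ≤ 5 := by
      have := natDegree_derivative_le (gD (RingHom.id ℂ) c)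
      omega
    obtain ⟨P, Q, -, -, hPQ⟩ := exists_mul_add_mul_eq_C_resultant _ _ hd hd' (Or.inl (by norm_num))
    generalize resultant (gD (RingHom.id ℂ) c) (derivative (gD (RingHom.id ℂ) c)) 6 5 = r at *
    rw [← hD, derivative_C_mul] at hPQ
    refine ⟨C (gl (RingHom.id ℂ) c ^ 4 * r⁻¹) * P, C (gl (RingHom.id ℂ) c ^ 4 * r⁻¹) * Q, ?_⟩
    have hr : C r * C r⁻¹ = (1 : ℂ[X]) := by rw [← C_mul, mul_inv_cancel₀ hres, C_1]
    rw [C_mul]
    linear_combination C r⁻¹ * hPQ + hr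

/-- test vector -/
def ctest : Fin 10 → ℝ := ![1, 0, 0, 1, 0, 1, 0, 6, 0, -2]

theorem gl_test : gl (RingHom.id ℂ) (cc ctest) = Complex.I := by
  simp [gl, cc, ctest]
  ring

theorem gD_test : gD (RingHom.id ℂ) (cc ctest) =
    C (-27) * X ^ 6 + C (-58 * Complex.I) * X ^ 3 + C 27 := by
  have hb : gb (RingHom.id ℂ) (cc ctest) = 0 := by
    have h1 : (RingHom.id ℂ) (1 / 4) * cc ctest 3 + (RingHom.id ℂ) (Complex.I / 4) * cc ctest 4 +
        (RingHom.id ℂ) (-(1 / 4)) * cc ctest 5 = 0 := by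
      simp [cc, ctest]
    have h2 : (RingHom.id ℂ) (3 / 8) * cc ctest 6 + (RingHom.id ℂ) (Complex.I / 8) * cc ctest 7 +
        (RingHom.id ℂ) (1 / 8) * cc ctest 8 + (RingHom.id ℂ) (3 * Complex.I / 8) * cc ctest 9 = 0 := by
      simp [cc, ctest]
      ring
    rw [gb, h1, h2]
    simp
  have hc : gc (RingHom.id ℂ) (cc ctest) = X := by
    have h1 : (RingHom.id ℂ) (1 / 2) * cc ctest 1 + (RingHom.id ℂ) (Complex.I / 2) * cc ctest 2 = 0 := by
      simp [cc, ctest]
    have h2 : (RingHom.id ℂ) (1 / 2) * cc ctest 3 + (RingHom.id ℂ) (1 / 2) * cc ctest 5 = 1 := by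
      simp [cc, ctest]
      norm_num
    have h3 : (RingHom.id ℂ) (3 / 8) * cc ctest 6 + (RingHom.id ℂ) (-(Complex.I / 8)) * cc ctest 7 +
        (RingHom.id ℂ) (1 / 8) * cc ctest 8 + (RingHom.id ℂ) (-(3 * Complex.I / 8)) * cc ctest 9 = 0 := by
      simp [cc, ctest]
      ring
    rw [gc, h1, h2, h3]
    simp
  have hd : gd (RingHom.id ℂ) (cc ctest) = 1 - C Complex.I * X ^ 3 := by
    have h0 : cc ctest 0 = 1 := by simp [cc, ctest]
    have h1 : (RingHom.id ℂ) (1 / 2) * cc ctest 1 + (RingHom.id ℂ) (-(Complex.I / 2)) * cc ctest 2 = 0 := by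
      simp [cc, ctest]
    have h2 : (RingHom.id ℂ) (1 / 4) * cc ctest 3 + (RingHom.id ℂ) (-(Complex.I / 4)) * cc ctest 4 +
        (RingHom.id ℂ) (-(1 / 4)) * cc ctest 5 = 0 := by
      simp [cc, ctest]
    have h3 : (RingHom.id ℂ) (1 / 8) * cc ctest 6 + (RingHom.id ℂ) (-(Complex.I / 8)) * cc ctest 7 +
        (RingHom.id ℂ) (-(1 / 8)) * cc ctest 8 + (RingHom.id ℂ) (Complex.I / 8) * cc ctest 9 =
        -Complex.I := by
      simp [cc, ctest]
      ring
    rw [gd, h0, h1, h2, h3]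
    simp [sub_eq_add_neg]
  rw [gD, hb, hc, hd, gl_test]
  have hI : (C Complex.I : ℂ[X]) ^ 2 = -1 := by
    rw [← C_pow, Complex.I_sq, C_neg, C_1]
  have e1 : (C (-27) : ℂ[X]) = -27 := (numC_neg 27).symm
  have e2 : (C (-58 * Complex.I) : ℂ[X]) = -58 * C Complex.I := by
    rw [C_mul, ← numC_neg]
  have e3 : (C 27 : ℂ[X]) = 27 := (numC 27).symm
  rw [e1, e2, e3]
  linear_combination (-27 - 27 * X ^ 6 * C Complex.I ^ 2 + 54 * C Complex.I * X ^ 3 + 27 * X ^ 6) * hI

theorem gE_test : gE (RingHom.id ℂ) (cc ctest) ≠ 0 := by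
  set f : ℂ[X] := C (-27) * X ^ 6 + C (-58 * Complex.I) * X ^ 3 + C 27 with hf
  have hdf : derivative f = C (-162) * X ^ 5 + C (-174 * Complex.I) * X ^ 2 := by
    rw [hf]
    simp only [derivative_add, derivative_C_mul, derivative_X_pow, derivative_C, add_zero]
    have e1 : (C (-162) : ℂ[X]) = C (-27) * C 6 := by rw [← C_mul]; norm_num
    have e2 : (C (-174 * Complex.I) : ℂ[X]) = C (-58 * Complex.I) * C 3 := by
      rw [← C_mul]; congr 1; ring
    rw [e1, e2]
    push_cast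
    ring
  have hnd : f.natDegree = 6 := by
    rw [hf]
    compute_degree!
  have hnd' : (derivative f).natDegree = 5 := by
    rw [hdf]
    compute_degree!
  have hcop : IsCoprime f (derivative f) := by
    refine ⟨C (1 / 27) + C (-(29 * Complex.I / 112)) * X ^ 3,
      C (1 / 3) * X * (C (-(953 / 6048)) + C (29 * Complex.I / 224) * X ^ 3), ?_⟩
    apply Polynomial.funext
    intro z
    rw [hdf, hf]
    simp only [eval_add, eval_mul, eval_pow, eval_C, eval_X, eval_one]
    have hI2 : Complex.I ^ 2 = -1 := Complex.I_sq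
    ring_nf
    rw [hI2]
    ring
  have hres := resultant_ne_zero f (derivative f) hcop
  rw [hnd, hnd'] at hres
  unfold gE
  rw [gD_test, gl_test, ← hf]
  have h9 : cc ctest 9 ≠ 0 := by simp [cc, ctest]
  have h6 : f.coeff 6 ≠ 0 := by
    rw [← hnd, coeff_natDegree, leadingCoeff_ne_zero]
    intro h0
    rw [h0, natDegree_zero] at hnd
    exact absurd hnd (by norm_num)
  exact mul_ne_zero (mul_ne_zero (mul_ne_zero Complex.I_ne_zero h9) h6) hres

theorem real_parts {σ : Type*} (P : MvPolynomial σ ℂ) : ∃ A B : MvPolynomial σ ℝ, ∀ c : σ → ℝ,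
    MvPolynomial.eval (fun i => (c i : ℂ)) P =
      (MvPolynomial.eval c A : ℂ) + (MvPolynomial.eval c B : ℂ) * Complex.I := by
  induction P using MvPolynomial.induction_on with
  | C a =>
    refine ⟨MvPolynomial.C a.re, MvPolynomial.C a.im, fun c => ?_⟩
    simp only [MvPolynomial.eval_C]
    exact (Complex.re_add_im a).symm
  | add P Q hP hQ =>
    obtain ⟨A, B, h⟩ := hP
    obtain ⟨A', B', h'⟩ := hQ
    refine ⟨A + A', B + B', fun c => ?_⟩
    rw [map_add, h, h', map_add, map_add]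
    push_cast
    ring
  | mul_X P i hP =>
    obtain ⟨A, B, h⟩ := hP
    refine ⟨A * MvPolynomial.X i, B * MvPolynomial.X i, fun c => ?_⟩
    rw [map_mul, h, map_mul, map_mul, MvPolynomial.eval_X, MvPolynomial.eval_X]
    push_cast
    ring

theorem exists_D : ∃ D : MvPolynomial (Fin 10) ℝ, D ≠ 0 ∧ ∀ c : Fin 10 → ℝ,
    MvPolynomial.eval c D ≠ 0 → gE (RingHom.id ℂ) (cc c) ≠ 0 := by
  obtain ⟨A, B, hAB⟩ := real_parts (gE (MvPolynomial.C : ℂ →+* MvPolynomial (Fin 10) ℂ)
    MvPolynomial.X)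
  have hev : ∀ c : Fin 10 → ℝ, MvPolynomial.eval (fun i => (c i : ℂ))
      (gE (MvPolynomial.C : ℂ →+* MvPolynomial (Fin 10) ℂ) MvPolynomial.X) =
      gE (RingHom.id ℂ) (cc c) := by
    intro c
    rw [map_gE]
    congr 1
    · ext a
      simp
    · funext i
      simp [cc]
  have key : ∀ c : Fin 10 → ℝ, MvPolynomial.eval c (A ^ 2 + B ^ 2) = 0 ↔
      gE (RingHom.id ℂ) (cc c) = 0 := by
    intro c
    rw [← hev c, hAB c, map_add, map_pow, map_pow]
    constructor
    · intro h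
      have h1 : MvPolynomial.eval c A = 0 := by nlinarith [sq_nonneg (MvPolynomial.eval c A), sq_nonneg (MvPolynomial.eval c B)]
      have h2 : MvPolynomial.eval c B = 0 := by nlinarith [sq_nonneg (MvPolynomial.eval c A), sq_nonneg (MvPolynomial.eval c B)]
      rw [h1, h2]
      simp
    · intro h
      have h1 := congrArg Complex.re h
      have h2 := congrArg Complex.im h
      simp at h1 h2
      rw [h1, h2]
      ring
  refine ⟨A ^ 2 + B ^ 2, ?_, fun c hc h => hc ((key c).2 h)⟩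
  intro h
  exact gE_test ((key ctest).1 (by rw [h, map_zero]))

/-- For every real cubic outside the exceptional set, and every bounded domain enclosed by an
oval, the exterior Cauchy transform is not algebraic. -/
theorem not_algebraic {c : Fin 10 → ℝ} (hE : gE (RingHom.id ℂ) (cc c) ≠ 0) {Γ Ω : Set ℂ}
    (hΓ : IsOval c Γ) (hΩ : Encloses Γ Ω) : ¬ AlgebraicCT Ω := by
  intro halg
  obtain ⟨hl, h9, h6, α, β, hBez⟩ := generic_facts hE
  obtain ⟨hΓc, z0, hz0, hΓ0⟩ := hΓ
  obtain ⟨hb, w, hw, hΩw⟩ := hΩ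
  have hΓcl : IsClosed Γ := hΓc.isClosed
  have ho : IsOpen Ω := by
    rw [hΩw]
    exact hΓcl.isOpen_compl.connectedComponentIn
  have hne : Ω.Nonempty := ⟨w, by
    rw [hΩw]
    exact mem_connectedComponentIn hw⟩
  have hpre : IsPreconnected Ω := by
    rw [hΩw]
    exact isPreconnected_connectedComponentIn
  have hΓZ : Γ ⊆ zeroSet c := by
    rw [hΓ0]
    exact connectedComponentIn_subset _ _
  have hfr : frontier Ω ⊆ zeroSet c := by
    rw [hΩw]
    exact (frontier_component hΓcl hw).trans hΓZ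
  have hc9 : c 9 ≠ 0 := by
    intro h
    apply h9
    rw [cc, h, Complex.ofReal_zero]
  have hn : volume (frontier Ω) = 0 := measure_mono_null hfr (null_zeroSet hc9)
  have hcub := cubic_eq c hl
  have hcop : IsCoprime (Del (pp (cc c)) (qq (cc c))) (derivative (Del (pp (cc c)) (qq (cc c)))) :=
    ⟨α, β, hBez⟩
  have hnz : ∀ z ∈ Ω, cubic c z ≠ 0 := by
    intro z hz h0
    obtain ⟨v, hv, hline⟩ := exists_line ho hb hfr hz h0
    exact line_contra (bb_deg _) (pp_deg _) hl h6 hcop hcub hv hline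
  have hPt0 : ∀ x ∈ frontier Ω, Pt (bb (cc c)) (pp (cc c)) (qq (cc c)) x = 0 := by
    intro x hx
    have h1 := hcub x
    have h2 : cubic c x = 0 := hfr hx
    rw [h2, Complex.ofReal_zero] at h1
    exact (mul_eq_zero.1 h1.symm).resolve_left hl
  -- the algebraic side
  have hint := transfer ho hb halg
  have E1 := rel_E1 ho hb hn hPt0
  have E2 := rel_E2 ho hb hn hPt0
  have hcore := core (pp_deg _) (qq_deg _) h6 hBez E1 E2 hint
  have hlin := (MS_lin (b := bb (cc c)) hb (Afun (qq (cc c)) α β) (Bfun (pp (cc c)) α β) 0 0 0).res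
  have hint0 : ∫ z in Ω, ((Afun (qq (cc c)) α β).eval z +
      (Bfun (pp (cc c)) α β).eval z * sf (bb (cc c)) z) = 0 := by
    rw [HahnSeries.coeff_sub] at hlin
    simp only [map_zero, zero_mul, add_zero] at hlin
    have h1 := MS_coeff_nat Ω (fun z => (Afun (qq (cc c)) α β).eval z * 1 +
      (Bfun (pp (cc c)) α β).eval z * sf (bb (cc c)) z + (0 : ℂ[X]).eval z * sf (bb (cc c)) z ^ 2 +
      (0 : ℂ[X]).eval z * sf (bb (cc c)) z ^ 3 + (0 : ℂ[X]).eval z * sf (bb (cc c)) z ^ 4) 0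
    simp only [Nat.cast_zero, zero_add, pow_zero, one_mul, mul_one, eval_zero, zero_mul,
      add_zero] at h1 hlin
    rw [h1] at hlin
    have hcore' : (px (Afun (qq (cc c)) α β) * MS Ω (fun _ => 1) +
      px (Bfun (pp (cc c)) α β) * MS Ω (sf (bb (cc c)))).coeff 1 = 0 := hcore
    rw [hcore', sub_zero] at hlin
    exact hlin
  -- the positive side
  rcases const_sign hpre hnz with hs | hs
  · exact kappa_ne_zero ho hb hne hn hBez hl hcub hs (fun z hz => hfr hz) hint0
  · refine kappa_ne_zero ho hb hne hn hBez (a := -gl (RingHom.id ℂ) (cc c)) (neg_ne_zero.2 hl)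
      (R := fun z => -cubic c z) ?_ ?_ ?_ hint0
    · intro z
      push_cast
      rw [hcub z]
      ring
    · intro z hz
      have := hs z hz
      linarith
    · intro z hz
      have h2 : cubic c z = 0 := hfr hz
      simp only [h2, neg_zero]

end Pool.Agent.H62c
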